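import Pool.Agent.H33.UN.Defs

/-!
# [H33 UN FIN] From two or three points to finite sets of indices

PROOF. `epf2`: let `F` have at most two elements. If `F` is empty any `w` works (`X` is nonempty). Otherwise there
are `i, j ∈ F` (maybe equal) with `F ⊆ {i, j}` (`Finset.card_eq_one`, `Finset.card_eq_two`, or pick `i ∈ F` and then an
element of `F.erase i` if there is one). Apply `EP2` to `y i, y j` and `a i, a j`. `epf3`: the same with three
elements `i, j, k ∈ F`, `F ⊆ {i, j, k}` (`Finset.card_le_three`-like case distinction; `Finset.card_eq_three`).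
-/

set_option autoImplicit false

namespace Pool.Agent.H33.UN

private theorem one_of {n : ℕ} {F : Finset (Fin n)} (hF : F.Nonempty) (hc : F.card ≤ 1) :
    ∃ i ∈ F, ∀ l ∈ F, l = i := by
  obtain ⟨i, hi⟩ := hF
  exact ⟨i, hi, fun l hl => Finset.card_le_one.1 hc l hl i hi⟩

private theorem two_of {n : ℕ} {F : Finset (Fin n)} (hF : F.Nonempty) (hc : F.card ≤ 2) :
    ∃ i ∈ F, ∃ j ∈ F, ∀ l ∈ F, l = i ∨ l = j := by
  obtain ⟨i, hi⟩ := hF
  by_cases he : (F.erase i).Nonempty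
  · have hc' : (F.erase i).card ≤ 1 := by
      rw [Finset.card_erase_of_mem hi]; omega
    obtain ⟨j, hj, h⟩ := one_of he hc'
    refine ⟨i, hi, j, Finset.mem_of_mem_erase hj, fun l hl => ?_⟩
    by_cases hli : l = i
    · exact Or.inl hli
    · exact Or.inr (h l (Finset.mem_erase.2 ⟨hli, hl⟩))
  · refine ⟨i, hi, i, hi, fun l hl => Or.inl ?_⟩
    by_contra hli
    exact he ⟨l, Finset.mem_erase.2 ⟨hli, hl⟩⟩

private theorem three_of {n : ℕ} {F : Finset (Fin n)} (hF : F.Nonempty) (hc : F.card ≤ 3) :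
    ∃ i ∈ F, ∃ j ∈ F, ∃ k ∈ F, ∀ l ∈ F, l = i ∨ l = j ∨ l = k := by
  obtain ⟨i, hi⟩ := hF
  by_cases he : (F.erase i).Nonempty
  · have hc' : (F.erase i).card ≤ 2 := by
      rw [Finset.card_erase_of_mem hi]; omega
    obtain ⟨j, hj, k, hk, h⟩ := two_of he hc'
    refine ⟨i, hi, j, Finset.mem_of_mem_erase hj, k, Finset.mem_of_mem_erase hk, fun l hl => ?_⟩
    by_cases hli : l = i
    · exact Or.inl hli
    · exact Or.inr (h l (Finset.mem_erase.2 ⟨hli, hl⟩))
  · refine ⟨i, hi, i, hi, i, hi, fun l hl => Or.inl ?_⟩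
    by_contra hli
    exact he ⟨l, Finset.mem_erase.2 ⟨hli, hl⟩⟩

theorem epf2 {X : Type} [Nonempty X] {N M : ℕ} {d : X → X → ℕ} (h : EP2 N M d) {s : ℕ} (hs : s ≤ 2) :
    EPF N s M d := by
  intro n F hF y a h1 h2 h3
  rcases F.eq_empty_or_nonempty with rfl | hne
  · exact ⟨Classical.arbitrary X, fun i hi => absurd hi (Finset.notMem_empty i)⟩
  obtain ⟨i, hi, j, hj, hall⟩ := two_of hne (hF.trans hs)
  obtain ⟨w, hw1, hw2⟩ := h (y i) (y j) (a i) (a j) (h1 i hi) (h1 j hj) (h2 i hi) (h2 j hj)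
    (h3 i hi j hj)
  refine ⟨w, fun l hl => ?_⟩
  rcases hall l hl with rfl | rfl
  · exact hw1
  · exact hw2

theorem epf3 {X : Type} [Nonempty X] {N M : ℕ} {d : X → X → ℕ} (h : EP3 N M d) {s : ℕ} (hs : s ≤ 3) :
    EPF N s M d := by
  intro n F hF y a h1 h2 h3
  rcases F.eq_empty_or_nonempty with rfl | hne
  · exact ⟨Classical.arbitrary X, fun i hi => absurd hi (Finset.notMem_empty i)⟩
  obtain ⟨i, hi, j, hj, k, hk, hall⟩ := three_of hne (hF.trans hs)
  obtain ⟨w, hw1, hw2, hw3⟩ := h (y i) (y j) (y k) (a i) (a j) (a k) (h1 i hi) (h1 j hj) (h1 k hk)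
    (h2 i hi) (h2 j hj) (h2 k hk) (h3 i hi j hj) (h3 i hi k hk) (h3 j hj k hk)
  refine ⟨w, fun l hl => ?_⟩
  rcases hall l hl with rfl | rfl | rfl
  · exact hw1
  · exact hw2
  · exact hw3

end Pool.Agent.H33.UN
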