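import Pool.Agent.H33.UN.Defs

/-!
# [H33 UN TRM] Terms and atomic formulas (Mathlib only)

PROOF. The language of graphs has no function symbols (`Language.graph.Functions n` is empty: `cases` on the
function symbol, or `isEmptyElim` with the `IsRelational` instance), so a term is `Term.var`; and
`Empty ⊕ Fin n` has only the elements `Sum.inr i`. `tv_var`: `varFinset (var (inr i)) = {inr i}`.
`rel_cases`: the only relation symbol is `Language.adj`, of arity two (`cases R`).
`rel_adj`: `simp [BoundedFormula.realize_rel, SimpleGraph.structure, …]`, or `rfl` after unfolding; the value of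
`RelMap adj` in `G.structure` at `t` is `G.Adj (t 0) (t 1)`.
-/

set_option autoImplicit false

open FirstOrder Language

namespace Pool.Agent.H33.UN

theorem term_eq {n : ℕ} (t : Language.graph.Term (Empty ⊕ Fin n)) :
    ∃ i : Fin n, t = Term.var (Sum.inr i) := by
  cases t with
  | var a =>
    rcases a with a | i
    · exact a.elim
    · exact ⟨i, rfl⟩
  | func f _ => exact (isEmptyElim f)

theorem tv_var {n : ℕ} (i : Fin n) :
    tv (Term.var (Sum.inr i) : Language.graph.Term (Empty ⊕ Fin n)) = {i} := by
  ext j
  simp [tv, Term.varFinset]

/-- equality -/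
theorem real_eq {X : Type} (G : SimpleGraph X) {n : ℕ} (i k : Fin n) (x : Fin n → X) :
    @BoundedFormula.Realize Language.graph X G.structure Empty n
      (.equal (Term.var (Sum.inr i)) (Term.var (Sum.inr k))) Empty.elim x ↔ x i = x k := by
  rfl

/-- an atomic formula with a relation symbol is `adj` applied to two variables -/
theorem rel_adj {n l : ℕ} (R : Language.graph.Relations l)
    (ts : Fin l → Language.graph.Term (Empty ⊕ Fin n)) :
    ∃ i k : Fin n, fv (.rel R ts : Language.graph.BoundedFormula Empty n) = {i, k} ∧
      ∀ {X : Type} (G : SimpleGraph X) (x : Fin n → X),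
        (@BoundedFormula.Realize Language.graph X G.structure Empty n (.rel R ts) Empty.elim x ↔
          G.Adj (x i) (x k)) := by
  cases R
  obtain ⟨i, hi⟩ := term_eq (ts 0)
  obtain ⟨k, hk⟩ := term_eq (ts 1)
  refine ⟨i, k, ?_, ?_⟩
  · ext j
    simp only [fv, Finset.mem_biUnion, Finset.mem_univ, true_and, Fin.exists_fin_two, hi, hk, tv_var,
      Finset.mem_insert, Finset.mem_singleton]
  · intro X G x
    have h1 : @BoundedFormula.Realize Language.graph X G.structure Empty n
        (.rel Language.adj ts) Empty.elim x ↔
        G.Adj (@Term.realize Language.graph X G.structure _ (Sum.elim Empty.elim x) (ts 0))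
          (@Term.realize Language.graph X G.structure _ (Sum.elim Empty.elim x) (ts 1)) := Iff.rfl
    rw [hi, hk] at h1
    exact h1

end Pool.Agent.H33.UN
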