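import Pool.Agent.H33.UN.STP
import Pool.Agent.H33.UN.TRM

/-!
# [H33 UN GAM] The Ehrenfeucht–Fraïssé induction

PROOF. Induction on `φ` (with `n`, `j`, `x`, `y` general).
`falsum`: both sides false. `equal t₁ t₂`: by `term_eq` the terms are variables `i, k`, by `tv_var`
`fv = {i, k}`; by `real_eq` the formula says `x i = x k`, which by `Sp.zero` is `dX (x i) (x k) = 0`; the hypothesis
gives `min (dX ..) (2 ^ j + 1) = min (dY ..) (2 ^ j + 1)` and `2 ^ j + 1 ≥ 2`, so `dX = 0` iff `dY = 0`.
`rel R ts`: `rel_adj` and `Sp.one`, the same with the value `1`.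
`imp φ ψ`: `BoundedFormula.realize_imp`; `fv φ` and `fv ψ` are subsets of `fv (φ.imp ψ)`, so their cards are at most
its card, and `qrank φ, qrank ψ ≤ max ≤ j`.
`all φ`: `BoundedFormula.realize_all`. `qrank φ + 1 ≤ j`, so `j = j' + 1`, `qrank φ ≤ j'`. Put
`F = fv (all φ) = {i | i.castSucc ∈ fv φ}`, `s = F.card`, `s + j' + 1 ≤ m`.
We show: for every `w : X` there is `w' : Y` such that `Fin.snoc x w`, `Fin.snoc y w'` satisfy the hypothesis for `φ`
and `j'` (and the same with `X`, `Y` exchanged: make this a private lemma for two spaces and use it twice);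
then the induction hypothesis finishes: for `(∀ w, φ(w)) ↔ (∀ w', φ(w'))` each direction needs one of them.
Case `Fin.last n ∉ fv φ`: take any `w'`. Then `fv φ = F.map castSucc`, so `(fv φ).card = s` and
`s + j' ≤ m`; for `i, k ∈ fv φ` write `i = castSucc i'`, `Fin.snoc x w (castSucc i') = x i'`, and
`min (·) (2 ^ j' + 1)` is determined by `min (·) (2 ^ (j'+1) + 1)` (omega, `2 ^ (j'+1) = 2 * 2 ^ j'`).
Case `Fin.last n ∈ fv φ`: `fv φ = insert (last n) (F.map castSucc)`, so `(fv φ).card = s + 1`, which is `≤ S + 1` by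
`Width` (every formula has `(fv φ).card ≤ S + 1`, this is part of `Width` in all cases; for `falsum` it is trivial),
so `s ≤ S` and `hE s j'` gives `EPF N s (2 ^ j') dX` and `dY`. `step` with `M = 2 ^ j'` (`2 M + 1 = 2 ^ j + 1`) and
the set `F` gives `w'` with `min (dY w' (y i)) (2 ^ j' + 1) = min (dX w (x i)) (2 ^ j' + 1)` for `i ∈ F`. Pairs
`(castSucc i, castSucc k)`: as before. Pairs with `last n`: the choice of `w'` and symmetry of the distances; the
pair `(last, last)`: both distances are `0` (`Sp.zero`). And `(fv φ).card + j' = s + 1 + j' ≤ m`.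
-/

set_option autoImplicit false

open FirstOrder Language

namespace Pool.Agent.H33.UN

private theorem width_card {k n : ℕ} (φ : Language.graph.BoundedFormula Empty n)
    (h : Width k φ) : (fv φ).card ≤ k := by
  cases φ with
  | falsum => simp [fv]
  | equal t₁ t₂ => exact h
  | rel R ts => exact h
  | imp φ ψ => exact h.1
  | all φ => exact h.1

private theorem ext_step {X Y : Type} [Nonempty Y] {GX : SimpleGraph X} {GY : SimpleGraph Y} {N : ℕ}
    {dX : X → X → ℕ} {dY : Y → Y → ℕ} (hX : Sp GX N dX) (hY : Sp GY N dY) (S m : ℕ)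
    (hE : ∀ s j, s ≤ S → s + j + 1 ≤ m → EPF N s (2 ^ j) dY)
    {n : ℕ} (φ : Language.graph.BoundedFormula Empty (n + 1)) (j : ℕ)
    (hW : (fv φ).card ≤ S + 1)
    (hc : (fv (.all φ : Language.graph.BoundedFormula Empty n)).card + (j + 1) ≤ m)
    (x : Fin n → X) (y : Fin n → Y)
    (h : ∀ i ∈ fv (.all φ : Language.graph.BoundedFormula Empty n),
      ∀ k ∈ fv (.all φ : Language.graph.BoundedFormula Empty n),
        min (dX (x i) (x k)) (2 ^ (j + 1) + 1) = min (dY (y i) (y k)) (2 ^ (j + 1) + 1))
    (w : X) : ∃ w' : Y, (fv φ).card + j ≤ m ∧ ∀ i ∈ fv φ, ∀ k ∈ fv φ,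
      min (dX ((Fin.snoc x w : Fin (n + 1) → X) i) ((Fin.snoc x w : Fin (n + 1) → X) k)) (2 ^ j + 1) =
        min (dY ((Fin.snoc y w' : Fin (n + 1) → Y) i) ((Fin.snoc y w' : Fin (n + 1) → Y) k))
          (2 ^ j + 1) := by
  set F : Finset (Fin n) := fv (.all φ : Language.graph.BoundedFormula Empty n) with hF
  have hFm : ∀ i : Fin n, i ∈ F ↔ i.castSucc ∈ fv φ := by
    intro i
    rw [hF]
    simp only [fv, Finset.mem_filter, Finset.mem_univ, true_and]
  have hpow : 2 ^ (j + 1) = 2 * 2 ^ j := by rw [pow_succ, mul_comm]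
  by_cases hl : Fin.last n ∈ fv φ
  · have hfv : fv φ = insert (Fin.last n) (F.map Fin.castSuccEmb) := by
      ext i
      rw [Finset.mem_insert, Finset.mem_map]
      constructor
      · intro hi
        induction i using Fin.lastCases with
        | last => exact Or.inl rfl
        | cast i => exact Or.inr ⟨i, (hFm i).2 hi, rfl⟩
      · rintro (rfl | ⟨i, hi, rfl⟩)
        · exact hl
        · exact (hFm i).1 hi
    have hcard : (fv φ).card = F.card + 1 := by
      rw [hfv, Finset.card_insert_of_notMem, Finset.card_map]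
      rw [Finset.mem_map]
      rintro ⟨i, _, hi⟩
      exact (Fin.castSucc_lt_last i).ne hi
    have hs : F.card ≤ S := by omega
    have hE' := hE F.card j hs (by omega)
    have he : ∀ i ∈ F, ∀ k ∈ F, min (dX (x i) (x k)) (2 * 2 ^ j + 1) =
        min (dY (y i) (y k)) (2 * 2 ^ j + 1) := by
      intro i hi k hk
      have := h i hi k hk
      rwa [hpow] at this
    obtain ⟨w', hw'⟩ := step hX hY hE' F le_rfl x y he w
    refine ⟨w', by omega, ?_⟩
    intro i hi k hk
    induction i using Fin.lastCases with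
    | last =>
      induction k using Fin.lastCases with
      | last =>
        rw [Fin.snoc_last, Fin.snoc_last, (hX.zero w w).2 rfl, (hY.zero w' w').2 rfl]
      | cast k =>
        rw [Fin.snoc_last, Fin.snoc_last, Fin.snoc_castSucc, Fin.snoc_castSucc]
        exact (hw' k ((hFm k).2 hk)).symm
    | cast i =>
      induction k using Fin.lastCases with
      | last =>
        rw [Fin.snoc_last, Fin.snoc_last, Fin.snoc_castSucc, Fin.snoc_castSucc, hX.symm, hY.symm]
        exact (hw' i ((hFm i).2 hi)).symm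
      | cast k =>
        rw [Fin.snoc_castSucc, Fin.snoc_castSucc, Fin.snoc_castSucc, Fin.snoc_castSucc]
        have := he i ((hFm i).2 hi) k ((hFm k).2 hk)
        have h2 : 1 ≤ 2 ^ j := Nat.one_le_two_pow
        generalize 2 ^ j = M at this h2 ⊢
        omega
  · have hfv : fv φ = F.map Fin.castSuccEmb := by
      ext i
      rw [Finset.mem_map]
      constructor
      · intro hi
        induction i using Fin.lastCases with
        | last => exact absurd hi hl
        | cast i => exact ⟨i, (hFm i).2 hi, rfl⟩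
      · rintro ⟨i, hi, rfl⟩
        exact (hFm i).1 hi
    have hcard : (fv φ).card = F.card := by
      rw [hfv, Finset.card_map]
    obtain ⟨w'⟩ := (inferInstance : Nonempty Y)
    refine ⟨w', by omega, ?_⟩
    intro i hi k hk
    induction i using Fin.lastCases with
    | last => exact absurd hi hl
    | cast i =>
      induction k using Fin.lastCases with
      | last => exact absurd hk hl
      | cast k =>
        rw [Fin.snoc_castSucc, Fin.snoc_castSucc, Fin.snoc_castSucc, Fin.snoc_castSucc]
        have := h i ((hFm i).2 hi) k ((hFm k).2 hk)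
        rw [hpow] at this
        have h2 : 1 ≤ 2 ^ j := Nat.one_le_two_pow
        generalize 2 ^ j = M at this h2 ⊢
        omega

theorem game {X Y : Type} [Nonempty X] [Nonempty Y] {GX : SimpleGraph X} {GY : SimpleGraph Y} {N : ℕ}
    {dX : X → X → ℕ} {dY : Y → Y → ℕ} (hX : Sp GX N dX) (hY : Sp GY N dY) (S m : ℕ)
    (hE : ∀ s j, s ≤ S → s + j + 1 ≤ m → EPF N s (2 ^ j) dX ∧ EPF N s (2 ^ j) dY) :
    ∀ {n : ℕ} (φ : Language.graph.BoundedFormula Empty n) (j : ℕ), qrank φ ≤ j → Width (S + 1) φ →
      (fv φ).card + j ≤ m → ∀ (x : Fin n → X) (y : Fin n → Y),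
      (∀ i ∈ fv φ, ∀ k ∈ fv φ,
        min (dX (x i) (x k)) (2 ^ j + 1) = min (dY (y i) (y k)) (2 ^ j + 1)) →
      (@BoundedFormula.Realize Language.graph X GX.structure Empty n φ Empty.elim x ↔
        @BoundedFormula.Realize Language.graph Y GY.structure Empty n φ Empty.elim y) := by
  intro n φ
  induction φ with
  | falsum =>
    intro j _ _ _ x y _
    exact Iff.rfl
  | equal t₁ t₂ =>
    intro j _ _ _ x y h
    obtain ⟨i, rfl⟩ := term_eq t₁
    obtain ⟨k, rfl⟩ := term_eq t₂
    rw [real_eq GX i k x, real_eq GY i k y]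
    have hi : i ∈ fv (.equal (Term.var (Sum.inr i)) (Term.var (Sum.inr k)) :
        Language.graph.BoundedFormula Empty _) := by
      simp only [fv, tv_var, Finset.mem_union, Finset.mem_singleton, true_or]
    have hk : k ∈ fv (.equal (Term.var (Sum.inr i)) (Term.var (Sum.inr k)) :
        Language.graph.BoundedFormula Empty _) := by
      simp only [fv, tv_var, Finset.mem_union, Finset.mem_singleton, or_true]
    have h1 := h i hi k hk
    have h2 : 1 ≤ 2 ^ j := Nat.one_le_two_pow
    rw [← hX.zero, ← hY.zero]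
    generalize 2 ^ j = M at h1 h2
    omega
  | rel R ts =>
    intro j _ _ _ x y h
    obtain ⟨i, k, hfv, hr⟩ := rel_adj R ts
    rw [hr GX x, hr GY y]
    have hi : i ∈ fv (.rel R ts : Language.graph.BoundedFormula Empty _) := by
      rw [hfv]; simp
    have hk : k ∈ fv (.rel R ts : Language.graph.BoundedFormula Empty _) := by
      rw [hfv]; simp
    have h1 := h i hi k hk
    have h2 : 1 ≤ 2 ^ j := Nat.one_le_two_pow
    rw [← hX.one, ← hY.one]
    generalize 2 ^ j = M at h1 h2
    omega
  | imp φ ψ ihφ ihψ =>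
    intro j hq hW hc x y h
    have hfv : fv (.imp φ ψ : Language.graph.BoundedFormula Empty _) = fv φ ∪ fv ψ := rfl
    have hq' : qrank (.imp φ ψ : Language.graph.BoundedFormula Empty _) =
      max (qrank φ) (qrank ψ) := rfl
    rw [hfv] at hc h
    rw [hq'] at hq
    have h1 := ihφ j (le_trans (le_max_left _ _) hq) hW.2.1
      (le_trans (Nat.add_le_add_right (Finset.card_le_card Finset.subset_union_left) _) hc) x y
      (fun i hi k hk => h i (Finset.mem_union_left _ hi) k (Finset.mem_union_left _ hk))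
    have h2 := ihψ j (le_trans (le_max_right _ _) hq) hW.2.2
      (le_trans (Nat.add_le_add_right (Finset.card_le_card Finset.subset_union_right) _) hc) x y
      (fun i hi k hk => h i (Finset.mem_union_right _ hi) k (Finset.mem_union_right _ hk))
    change (_ → _) ↔ (_ → _)
    exact imp_congr h1 h2
  | all φ ih =>
    intro j hq hW hc x y h
    have hq' : qrank (.all φ : Language.graph.BoundedFormula Empty _) = qrank φ + 1 := rfl
    rw [hq'] at hq
    obtain ⟨j, rfl⟩ : ∃ i, j = i + 1 := ⟨j - 1, by omega⟩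
    have hq2 : qrank φ ≤ j := by omega
    have hW2 := width_card φ hW.2
    change (∀ w : X, _) ↔ (∀ w : Y, _)
    constructor
    · intro hx w
      obtain ⟨w', hc', hw'⟩ := ext_step hY hX S m (fun s i h1 h2 => (hE s i h1 h2).1) φ j hW2 hc y x
        (fun i hi k hk => (h i hi k hk).symm) w
      exact (ih j hq2 hW.2 hc' (Fin.snoc x w') (Fin.snoc y w)
        (fun i hi k hk => (hw' i hi k hk).symm)).1 (hx w')
    · intro hy w
      obtain ⟨w', hc', hw'⟩ := ext_step hX hY S m (fun s i h1 h2 => (hE s i h1 h2).2) φ j hW2 hc x y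
        h w
      exact (ih j hq2 hW.2 hc' (Fin.snoc x w) (Fin.snoc y w') hw').2 (hy w')

end Pool.Agent.H33.UN
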