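import Pool.Agent.H33.UN.Defs

/-!
# [H33 UN KE] Exact extension gives truncated extension, for every truncation

PROOF. `ep2_of_k2`: near means target `≤ M`, far means target `M + 1` (then `M + 1 ≤ N`). Both near: the targets
themselves. `x` near, `y` far: targets `a` and `min N (d x y + a)` (this is `≥ M + 1` by `Ok`). `x` far, `y` near:
symmetric. Both far: targets `N, N` (`d x y ≤ N`). All conditions of `K2` by omega with `0 ≤ d x y ≤ N`.
`ep3_of_k3`: put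
`f x = a` if `a ≤ M`, otherwise `min N (min (if b ≤ M then d x y + b else N) (if c ≤ M then d x z + c else N))`
and `f y`, `f z` alike. Then `f` satisfies all conditions of `K3` (this is the largest `1`-Lipschitz
extension): split into the `8` cases `a ≤ M`, `b ≤ M`, `c ≤ M` and use omega with the three triangle inequalities
for `x, y, z`, `d ≤ N`, symmetry (`d y x = d x y` etc.), and the hypotheses `Ok`. For a far point `f ≥ M + 1`, since
`N ≥ M + 1` and `d x y + b ≥ M + 1` for a near `y` by `Ok`. So the truncated values are right.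
-/

set_option autoImplicit false

namespace Pool.Agent.H33.UN

theorem ep2_of_k2 {X : Type} {G : SimpleGraph X} {N : ℕ} {d : X → X → ℕ} (hd : Sp G N d)
    (h : K2 N d) (M : ℕ) : EP2 N M d := by
  intro x y a b ha hb haN hbN hok
  obtain ⟨o1, o2, o3⟩ := hok
  have hle := hd.le x y
  by_cases h1 : a ≤ M
  · by_cases h2 : b ≤ M
    · obtain ⟨q1, q2, q3⟩ := o1 h1 h2
      obtain ⟨w, w1, w2⟩ := h x y a b haN hbN q1 q2 q3
      exact ⟨w, by rw [w1]; omega, by rw [w2]; omega⟩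
    · have q1 := o2 h1 (by omega)
      obtain ⟨w, w1, w2⟩ := h x y a (min N (d x y + a)) haN (by omega) (by omega) (by omega)
        (by omega)
      exact ⟨w, by rw [w1]; omega, by rw [w2]; omega⟩
  · by_cases h2 : b ≤ M
    · have q1 := o3 h2 (by omega)
      obtain ⟨w, w1, w2⟩ := h x y (min N (d x y + b)) b (by omega) hbN (by omega) (by omega)
        (by omega)
      exact ⟨w, by rw [w1]; omega, by rw [w2]; omega⟩
    · obtain ⟨w, w1, w2⟩ := h x y N N le_rfl le_rfl (by omega) (by omega) (by omega)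
      exact ⟨w, by rw [w1]; omega, by rw [w2]; omega⟩


theorem ep3_of_k3 {X : Type} {G : SimpleGraph X} {N : ℕ} {d : X → X → ℕ} (hd : Sp G N d)
    (h : K3 N d) (M : ℕ) : EP3 N M d := by
  intro x y z a b c ha hb hc haN hbN hcN hab hac hbc
  obtain ⟨ab1, ab2, ab3⟩ := hab
  obtain ⟨ac1, ac2, ac3⟩ := hac
  obtain ⟨bc1, bc2, bc3⟩ := hbc
  have l1 := hd.le x y
  have l2 := hd.le x z
  have l3 := hd.le y z
  have s1 := hd.symm y x
  have s2 := hd.symm z y
  have s3 := hd.symm z x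
  have t1 := hd.tri x y z
  have t2 := hd.tri y x z
  have t3 := hd.tri x z y
  rw [s1] at t2
  rw [s2] at t3
  obtain ⟨r, hr⟩ : ∃ r, r = d x y := ⟨_, rfl⟩
  obtain ⟨s, hs⟩ : ∃ s, s = d x z := ⟨_, rfl⟩
  obtain ⟨t, ht⟩ : ∃ t, t = d y z := ⟨_, rfl⟩
  rw [← hr] at l1 t1 t2 t3 ab1 ab2 ab3
  rw [← hs] at l2 t1 t2 t3 ac1 ac2 ac3
  rw [← ht] at l3 t1 t2 t3 bc1 bc2 bc3
  have key : ∀ a' b' c' : ℕ, a' ≤ N → b' ≤ N → c' ≤ N →
      (a' ≤ b' + r ∧ b' ≤ a' + r ∧ r ≤ a' + b') → (a' ≤ c' + s ∧ c' ≤ a' + s ∧ s ≤ a' + c') →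
      (b' ≤ c' + t ∧ c' ≤ b' + t ∧ t ≤ b' + c') → min a' (M + 1) = a → min b' (M + 1) = b →
      min c' (M + 1) = c →
      ∃ w, min (d w x) (M + 1) = a ∧ min (d w y) (M + 1) = b ∧ min (d w z) (M + 1) = c := by
    intro a' b' c' q1 q2 q3 q4 q5 q6 q7 q8 q9
    rw [hr] at q4
    rw [hs] at q5
    rw [ht] at q6
    obtain ⟨w, w1, w2, w3⟩ := h x y z a' b' c' q1 q2 q3 q4.1 q4.2.1 q4.2.2 q5.1 q5.2.1 q5.2.2
      q6.1 q6.2.1 q6.2.2
    exact ⟨w, by rw [w1]; exact q7, by rw [w2]; exact q8, by rw [w3]; exact q9⟩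
  clear hr hs ht
  by_cases h1 : a ≤ M
  · by_cases h2 : b ≤ M
    · have ab := ab1 h1 h2
      by_cases h3 : c ≤ M
      · have ac := ac1 h1 h3
        have bc := bc1 h2 h3
        refine key a b c haN hbN hcN ab ac bc ?_ ?_ ?_ <;> omega
      · have ac := ac2 h1 (by omega)
        have bc := bc2 h2 (by omega)
        refine key a b (min N (min (s + a) (t + b))) haN hbN ?_ ab ⟨?_, ?_, ?_⟩ ⟨?_, ?_, ?_⟩
          ?_ ?_ ?_ <;> omega
    · have ab := ab2 h1 (by omega)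
      by_cases h3 : c ≤ M
      · have ac := ac1 h1 h3
        have bc := bc3 h3 (by omega)
        refine key a (min N (min (r + a) (t + c))) c haN ?_ hcN ⟨?_, ?_, ?_⟩ ac ⟨?_, ?_, ?_⟩
          ?_ ?_ ?_ <;> omega
      · have ac := ac2 h1 (by omega)
        refine key a (min N (r + a)) (min N (s + a)) haN ?_ ?_ ⟨?_, ?_, ?_⟩ ⟨?_, ?_, ?_⟩
          ⟨?_, ?_, ?_⟩ ?_ ?_ ?_ <;> omega
  · by_cases h2 : b ≤ M
    · have ab := ab3 h2 (by omega)
      by_cases h3 : c ≤ M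
      · have ac := ac3 h3 (by omega)
        have bc := bc1 h2 h3
        refine key (min N (min (r + b) (s + c))) b c ?_ hbN hcN ⟨?_, ?_, ?_⟩ ⟨?_, ?_, ?_⟩ bc
          ?_ ?_ ?_ <;> omega
      · have bc := bc2 h2 (by omega)
        refine key (min N (r + b)) b (min N (t + b)) ?_ hbN ?_ ⟨?_, ?_, ?_⟩ ⟨?_, ?_, ?_⟩
          ⟨?_, ?_, ?_⟩ ?_ ?_ ?_ <;> omega
    · by_cases h3 : c ≤ M
      · have ac := ac3 h3 (by omega)
        have bc := bc3 h3 (by omega)
        refine key (min N (s + c)) (min N (t + c)) c ?_ ?_ hcN ⟨?_, ?_, ?_⟩ ⟨?_, ?_, ?_⟩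
          ⟨?_, ?_, ?_⟩ ?_ ?_ ?_ <;> omega
      · refine key N N N le_rfl le_rfl le_rfl ⟨?_, ?_, ?_⟩ ⟨?_, ?_, ?_⟩
          ⟨?_, ?_, ?_⟩ ?_ ?_ ?_ <;> omega


theorem k2_of_k3 {X : Type} {G : SimpleGraph X} {N : ℕ} {d : X → X → ℕ} (hd : Sp G N d)
    (h : K3 N d) : K2 N d := by
  intro x y a b ha hb h1 h2 h3
  have hz : d y y = 0 := (hd.zero y y).2 rfl
  obtain ⟨w, w1, w2, -⟩ := h x y y a b b ha hb hb h1 h2 h3 h1 h2 h3 (by omega) (by omega)
    (by omega)
  exact ⟨w, w1, w2⟩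


end Pool.Agent.H33.UN
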