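import Pool.Agent.H33.UN.UNI

/-!
# [H33 UN USP] The universal graph: its distance and the exact three-point extension property

PROOF. `univ_sp`: `G` is connected, so `dist` is symmetric (`SimpleGraph.dist_comm`), satisfies the triangle
inequality (`SimpleGraph.Connected.dist_triangle`), is zero only on the diagonal (`Connected.dist_eq_zero_iff`), is
one iff adjacent (`SimpleGraph.dist_eq_one_iff_adj`), and `(dist : ℕ∞) = edist ≤ ediam = N`
(`SimpleGraph.edist_le_ediam`, `SimpleGraph.Reachable.coe_dist_eq_edist` or the name in this Mathlib).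
`univ_k3`: points `x, y, z`, targets `a, b, c`. Let `ρ` be the symmetric `4 × 4` matrix with the distances of
`x, y, z` in the places `0, 1, 2`, `ρ 3 0 = a`, `ρ 3 1 = b`, `ρ 3 2 = c` and zeros on the diagonal
(`!![…]` or `![![…], …]`); the conditions of `four_points` are the hypotheses and the triangle inequalities
(`decide`/`fin_cases` over indices and omega). Get `f : Fin 4 → ℕ` with `G.edist (f i) (f j) = ρ i j`. By
homogeneity (third part of `Univ`) with `k = 3`, `f ∘ castSucc` and `![x, y, z]`, there is `σ : G ≃g G` with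
`σ (f 0) = x`, `σ (f 1) = y`, `σ (f 2) = z`. Put `w = σ (f 3)`. An automorphism preserves `edist` (walks map to walks,
both directions), so `G.edist w x = ρ 3 0 = a` etc., and `dist = a` (`edist` is the cast of `dist` on a connected
graph).
-/

set_option autoImplicit false

namespace Pool.Agent.H33.UN

private theorem usp_coe {N : ℕ} {G : SimpleGraph ℕ} (h : Univ N G) (x y : ℕ) :
    (G.dist x y : ℕ∞) = G.edist x y := (h.1.preconnected x y).coe_dist_eq_edist

private theorem usp_map {G : SimpleGraph ℕ} (σ : G ≃g G) (x y : ℕ) :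
    G.edist (σ x) (σ y) ≤ G.edist x y := by
  by_cases ht : G.edist x y = ⊤
  · rw [ht]
    exact le_top
  · obtain ⟨p, hp⟩ := SimpleGraph.exists_walk_of_edist_ne_top ht
    rw [← hp, ← SimpleGraph.Walk.length_map σ.toHom p]
    exact SimpleGraph.edist_le _

private theorem usp_iso {G : SimpleGraph ℕ} (σ : G ≃g G) (x y : ℕ) :
    G.edist (σ x) (σ y) = G.edist x y := by
  refine le_antisymm (usp_map σ x y) ?_
  have h := usp_map σ.symm (σ x) (σ y)
  rw [RelIso.symm_apply_apply, RelIso.symm_apply_apply] at h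
  exact h

theorem univ_sp {N : ℕ} {G : SimpleGraph ℕ} (h : Univ N G) : Sp G N G.dist where
  symm x y := SimpleGraph.dist_comm
  zero x y := h.1.dist_eq_zero_iff
  one x y := SimpleGraph.dist_eq_one_iff_adj
  tri x y z := h.1.dist_triangle
  le x y := by
    have h1 : (G.dist x y : ℕ∞) ≤ (N : ℕ∞) := by
      rw [usp_coe h, ← h.2.1]
      exact SimpleGraph.edist_le_ediam
    exact_mod_cast h1

theorem univ_k3 {N : ℕ} {G : SimpleGraph ℕ} (h : Univ N G) : K3 N G.dist := by
  intro x y z a b c ha hb hc hab hba hxy hac hca hxz hbc hcb hyz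
  have S := univ_sp h
  have t1 := S.tri x y z
  have t2 := S.tri y x z
  have t3 := S.tri x z y
  rw [S.symm y x] at t2
  rw [S.symm z y] at t3
  have l1 := S.le x y
  have l2 := S.le x z
  have l3 := S.le y z
  obtain ⟨f, hf⟩ := four_points h ![![0, G.dist x y, G.dist x z, a], ![G.dist x y, 0, G.dist y z, b],
    ![G.dist x z, G.dist y z, 0, c], ![a, b, c, 0]]
    (by intro i; fin_cases i <;> rfl)
    (by intro i j; fin_cases i <;> fin_cases j <;> rfl)
    (by
      intro i j k
      fin_cases i <;> fin_cases j <;> fin_cases k <;> simp <;> omega)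
    (by
      intro i j
      fin_cases i <;> fin_cases j <;> simp <;> omega)
  have h01 : G.edist (f 0) (f 1) = (G.dist x y : ℕ∞) := hf 0 1
  have h02 : G.edist (f 0) (f 2) = (G.dist x z : ℕ∞) := hf 0 2
  have h12 : G.edist (f 1) (f 2) = (G.dist y z : ℕ∞) := hf 1 2
  have h30 : G.edist (f 3) (f 0) = (a : ℕ∞) := hf 3 0
  have h31 : G.edist (f 3) (f 1) = (b : ℕ∞) := hf 3 1
  have h32 : G.edist (f 3) (f 2) = (c : ℕ∞) := hf 3 2
  rw [usp_coe h] at h01 h02 h12
  obtain ⟨σ, hσ⟩ := h.2.2.1 3 ![f 0, f 1, f 2] ![x, y, z] (by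
    intro i j
    fin_cases i <;> fin_cases j <;>
      simp [h01, h02, h12, SimpleGraph.edist_comm (G := G) (u := f 1) (v := f 0),
        SimpleGraph.edist_comm (G := G) (u := f 2) (v := f 0),
        SimpleGraph.edist_comm (G := G) (u := f 2) (v := f 1),
        SimpleGraph.edist_comm (G := G) (u := y) (v := x),
        SimpleGraph.edist_comm (G := G) (u := z) (v := x),
        SimpleGraph.edist_comm (G := G) (u := z) (v := y)])
  have s0 : σ (f 0) = x := hσ 0
  have s1 : σ (f 1) = y := hσ 1
  have s2 : σ (f 2) = z := hσ 2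
  rw [← usp_iso σ, s0, ← usp_coe h] at h30
  rw [← usp_iso σ, s1, ← usp_coe h] at h31
  rw [← usp_iso σ, s2, ← usp_coe h] at h32
  exact ⟨σ (f 3), by exact_mod_cast h30, by exact_mod_cast h31, by exact_mod_cast h32⟩

end Pool.Agent.H33.UN
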