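import Pool.Agent.H33.UN.Defs

/-!
# [H33 UN WID] A sentence of quantifier rank at most `k` has width at most `k` (Mathlib only)

PROOF. `width_of_qrank`: induction on `φ`, for `φ` with variables in `Fin n`: if `n + qrank φ ≤ k` then
`Width k φ`. Every set `fv` is a subset of `Fin n`, so it has at most `n ≤ k` elements (`Finset.card_le_univ`,
`Fintype.card_fin`). `imp`: `qrank` is a maximum. `all φ`: `φ` has variables in `Fin (n + 1)` and
`(n + 1) + qrank φ = n + qrank (all φ) ≤ k`. `card_fv_le` : `Width k φ → (fv φ).card ≤ k` by cases on `φ`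
(`falsum`: the card is `0`).
-/

set_option autoImplicit false

open FirstOrder Language

namespace Pool.Agent.H33.UN

private theorem card_fv_le_n {n : ℕ} (φ : Language.graph.BoundedFormula Empty n) :
    (fv φ).card ≤ n := by
  have := Finset.card_le_univ (fv φ)
  simpa using this

theorem width_of_qrank {k : ℕ} : ∀ {n : ℕ} (φ : Language.graph.BoundedFormula Empty n),
    n + qrank φ ≤ k → Width k φ := by
  intro n φ
  induction φ with
  | falsum => intro _; trivial
  | equal t₁ t₂ =>
    intro h
    exact (card_fv_le_n _).trans (le_trans (Nat.le_add_right _ _) h)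
  | rel R ts =>
    intro h
    exact (card_fv_le_n _).trans (le_trans (Nat.le_add_right _ _) h)
  | imp φ ψ ih1 ih2 =>
    intro h
    simp only [qrank] at h
    refine ⟨(card_fv_le_n _).trans (by omega), ih1 (by omega), ih2 (by omega)⟩
  | all φ ih =>
    intro h
    simp only [qrank] at h
    exact ⟨(card_fv_le_n _).trans (by omega), ih (by omega)⟩

theorem card_fv_le {k n : ℕ} (φ : Language.graph.BoundedFormula Empty n) (h : Width k φ) :
    (fv φ).card ≤ k := by
  cases φ with
  | falsum => simp [fv]
  | equal t₁ t₂ => exact h
  | rel R ts => exact h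
  | imp φ ψ => exact h.1
  | all φ => exact h.1

end Pool.Agent.H33.UN
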