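import Pool.Agent.H33.UN.GEP
import Pool.Agent.H33.UN.KE
import Pool.Agent.H33.UN.FIN
import Pool.Agent.H33.UN.GAM
import Pool.Agent.H33.UN.WID
import Pool.Agent.H33.UN.USP

/-!
# Assembly: the universal graph of diameter `N` and the folded cube `Gam N` satisfy the same sentences with
few variables and small quantifier rank
-/

set_option autoImplicit false

open FirstOrder Language

namespace Pool.Agent.H33.UN

instance (N : ℕ) : Nonempty (V N) := ⟨⟨∅, by simp⟩⟩

theorem univ_epf {N : ℕ} {G : SimpleGraph ℕ} (h : Univ N G) {s : ℕ} (hs : s ≤ 3) (M : ℕ) :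
    EPF N s M G.dist :=
  epf3 (ep3_of_k3 (univ_sp h) (univ_k3 h) M) hs

theorem gam_epf2 {N : ℕ} (hN : 1 ≤ N) {s : ℕ} (hs : s ≤ 2) (M : ℕ) :
    EPF N s M (D (N := N)) :=
  epf2 (ep2_of_k2 (gam_sp hN) (gam_k2 N) M) hs

theorem real_any {X : Type} (G : SimpleGraph X) (φ : Language.graph.BoundedFormula Empty 0)
    (v v' : Empty → X) (x x' : Fin 0 → X) :
    @BoundedFormula.Realize Language.graph X G.structure Empty 0 φ v x ↔
      @BoundedFormula.Realize Language.graph X G.structure Empty 0 φ v' x' := by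
  rw [Subsingleton.elim v v', Subsingleton.elim x x']

theorem main {N : ℕ} (hN : 1 ≤ N) {G : SimpleGraph ℕ} (h : Univ N G) (φ : Language.graph.Sentence)
    (hφ : Width 3 φ ∨ (Width 4 φ ∧ 3 * 2 ^ qrank φ ≤ 16 * N)) :
    (@Sentence.Realize Language.graph ℕ G.structure φ ↔
      @Sentence.Realize Language.graph (V N) (Gam N).structure φ) := by
  have key : ∀ S : ℕ, Width (S + 1) φ →
      (∀ s j, s ≤ S → s + j + 1 ≤ qrank φ → EPF N s (2 ^ j) G.dist ∧ EPF N s (2 ^ j) (D (N := N))) →
      (@Sentence.Realize Language.graph ℕ G.structure φ ↔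
        @Sentence.Realize Language.graph (V N) (Gam N).structure φ) := by
    intro S hS hE
    have hc : (fv φ).card = 0 := by
      have := Finset.card_le_univ (fv φ)
      simpa using this
    have h0 := game (univ_sp h) (gam_sp hN) S (qrank φ) hE φ (qrank φ) le_rfl hS (by omega)
      default default (fun i => i.elim0)
    exact (real_any G φ _ _ _ _).trans (h0.trans (real_any (Gam N) φ _ _ _ _))
  rcases hφ with hφ | ⟨hφ, hm⟩
  · exact key 2 hφ fun s j hs _ => ⟨univ_epf h (by omega) _, gam_epf2 hN hs _⟩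
  · refine key 3 hφ fun s j hs hj => ⟨univ_epf h hs _, ?_⟩
    by_cases h2 : s ≤ 2
    · exact gam_epf2 hN h2 _
    · have h3 : j + 4 ≤ qrank φ := by omega
      have h4 : 2 ^ (j + 4) ≤ 2 ^ qrank φ := Nat.pow_le_pow_right (by norm_num) h3
      have h5 : 2 ^ (j + 4) = 16 * 2 ^ j := by ring
      exact epf3 (gam_ep3 hN (by omega)) hs

end Pool.Agent.H33.UN
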