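import Mathlib

/-!
# Folded cubes and the universal graphs of finite diameter: definitions

`V N`: the even subsets of a set with `4 N + 1` elements (`16 ^ N` of them). `J x y`: half the size of the
symmetric difference, `0 ≤ J ≤ 2 N`. `D x y = min (J x y) (2 N + 1 - J x y)`, an integer metric with values
in `0, …, N`. `Gam N`: two distinct even sets are adjacent iff their symmetric difference has `2` or `4 N`
elements, that is, iff `D = 1`.

Formulas are Mathlib's formulas in the language of graphs. `fv`: the free variables. `Width k φ`: every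
subformula of `φ` (also `φ` itself) has at most `k` free variables. `qrank`: the quantifier rank.
-/

set_option autoImplicit false

open FirstOrder

namespace Pool.Agent.H33.UN

/-! ### The finite graph -/

/-- The even subsets of a set with `4 N + 1` elements. -/
abbrev V (N : ℕ) : Type := {s : Finset (Fin (4 * N + 1)) // Even s.card}

/-- Two distinct even sets are adjacent iff their symmetric difference has `2` or `4 N` elements. -/
def Gam (N : ℕ) : SimpleGraph (V N) where
  Adj x y := x ≠ y ∧ ((symmDiff x.1 y.1).card = 2 ∨ (symmDiff x.1 y.1).card = 4 * N)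
  symm := ⟨fun x y h => ⟨h.1.symm, by rw [symmDiff_comm y.1 x.1]; exact h.2⟩⟩
  loopless := ⟨fun _ h => h.1 rfl⟩

/-- Half the size of the symmetric difference. -/
def J {N : ℕ} (x y : V N) : ℕ := (symmDiff x.1 y.1).card / 2

/-- The folded distance. -/
def D {N : ℕ} (x y : V N) : ℕ := min (J x y) (2 * N + 1 - J x y)

/-! ### Formulas of the language of graphs -/

/-- The variables of a term. -/
def tv {n : ℕ} (t : Language.graph.Term (Empty ⊕ Fin n)) : Finset (Fin n) :=
  Finset.univ.filter fun i => Sum.inr i ∈ t.varFinset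

/-- The free variables of a formula. -/
def fv : ∀ {n : ℕ}, Language.graph.BoundedFormula Empty n → Finset (Fin n)
  | _, .falsum => ∅
  | _, .equal t₁ t₂ => tv t₁ ∪ tv t₂
  | _, .rel _ ts => Finset.univ.biUnion fun i => tv (ts i)
  | _, .imp φ ψ => fv φ ∪ fv ψ
  | _, .all φ => Finset.univ.filter fun i => i.castSucc ∈ fv φ

/-- Every subformula has at most `k` free variables. -/
def Width (k : ℕ) : ∀ {n : ℕ}, Language.graph.BoundedFormula Empty n → Prop
  | _, .falsum => True
  | _, .equal t₁ t₂ => (fv (.equal t₁ t₂)).card ≤ k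
  | _, .rel R ts => (fv (.rel R ts)).card ≤ k
  | _, .imp φ ψ => (fv (.imp φ ψ)).card ≤ k ∧ Width k φ ∧ Width k ψ
  | _, .all φ => (fv (.all φ)).card ≤ k ∧ Width k φ

/-- The quantifier rank. -/
def qrank : ∀ {n : ℕ}, Language.graph.BoundedFormula Empty n → ℕ
  | _, .falsum => 0
  | _, .equal _ _ => 0
  | _, .rel _ _ => 0
  | _, .imp φ ψ => max (qrank φ) (qrank ψ)
  | _, .all φ => qrank φ + 1

/-! ### Integer metric spaces and extension properties -/

/-- `d` is an integer valued metric with values at most `N`, and distance one is adjacency in `G`. -/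
structure Sp {X : Type} (G : SimpleGraph X) (N : ℕ) (d : X → X → ℕ) : Prop where
  symm : ∀ x y, d x y = d y x
  zero : ∀ x y, d x y = 0 ↔ x = y
  one : ∀ x y, d x y = 1 ↔ G.Adj x y
  tri : ∀ x y z, d x z ≤ d x y + d y z
  le : ∀ x y, d x y ≤ N

/-- Exact extension over two points. -/
def K2 {X : Type} (N : ℕ) (d : X → X → ℕ) : Prop :=
  ∀ (x y : X) (a b : ℕ), a ≤ N → b ≤ N → a ≤ b + d x y → b ≤ a + d x y → d x y ≤ a + b →
    ∃ w, d w x = a ∧ d w y = b

/-- Exact extension over three points. -/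
def K3 {X : Type} (N : ℕ) (d : X → X → ℕ) : Prop :=
  ∀ (x y z : X) (a b c : ℕ), a ≤ N → b ≤ N → c ≤ N →
    a ≤ b + d x y → b ≤ a + d x y → d x y ≤ a + b →
    a ≤ c + d x z → c ≤ a + d x z → d x z ≤ a + c →
    b ≤ c + d y z → c ≤ b + d y z → d y z ≤ b + c →
    ∃ w, d w x = a ∧ d w y = b ∧ d w z = c

/-- The condition for two target values `a, b ≤ M + 1` (`M + 1` means: farther than `M`) at two points at
distance `r`. -/
def Ok (M r a b : ℕ) : Prop :=
  (a ≤ M → b ≤ M → a ≤ b + r ∧ b ≤ a + r ∧ r ≤ a + b) ∧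
    (a ≤ M → b = M + 1 → M + 1 ≤ a + r) ∧ (b ≤ M → a = M + 1 → M + 1 ≤ b + r)

/-- Extension over two points, distances truncated at `M + 1`. -/
def EP2 {X : Type} (N M : ℕ) (d : X → X → ℕ) : Prop :=
  ∀ (x y : X) (a b : ℕ), a ≤ M + 1 → b ≤ M + 1 → a ≤ N → b ≤ N → Ok M (d x y) a b →
    ∃ w, min (d w x) (M + 1) = a ∧ min (d w y) (M + 1) = b

/-- Extension over three points, distances truncated at `M + 1`. -/
def EP3 {X : Type} (N M : ℕ) (d : X → X → ℕ) : Prop :=
  ∀ (x y z : X) (a b c : ℕ), a ≤ M + 1 → b ≤ M + 1 → c ≤ M + 1 → a ≤ N → b ≤ N → c ≤ N →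
    Ok M (d x y) a b → Ok M (d x z) a c → Ok M (d y z) b c →
    ∃ w, min (d w x) (M + 1) = a ∧ min (d w y) (M + 1) = b ∧ min (d w z) (M + 1) = c

/-- Extension over at most `s` points, distances truncated at `M + 1`. -/
def EPF {X : Type} (N s M : ℕ) (d : X → X → ℕ) : Prop :=
  ∀ (n : ℕ) (F : Finset (Fin n)), F.card ≤ s → ∀ (y : Fin n → X) (a : Fin n → ℕ),
    (∀ i ∈ F, a i ≤ M + 1) → (∀ i ∈ F, a i ≤ N) →
    (∀ i ∈ F, ∀ j ∈ F, Ok M (d (y i) (y j)) (a i) (a j)) →
    ∃ w, ∀ i ∈ F, min (d w (y i)) (M + 1) = a i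

/-! ### The universal graph -/

/-- The hypotheses of the problem: `G` is the universal graph of diameter `N`. -/
def Univ (N : ℕ) (G : SimpleGraph ℕ) : Prop :=
  G.Connected ∧ G.ediam = (N : ℕ∞) ∧
    (∀ (k : ℕ) (x y : Fin k → ℕ),
      (∀ i j, G.edist (x i) (x j) = G.edist (y i) (y j)) →
        ∃ σ : G ≃g G, ∀ i, σ (x i) = y i) ∧
    (∀ (n : ℕ) (H : SimpleGraph (Fin n)), H.Connected → H.ediam = (N : ℕ∞) →
      ∃ f : Fin n → ℕ, ∀ a b, G.edist (f a) (f b) = H.edist a b)

/-- The graph on `{0, …, N}^4` in which two points are adjacent iff they differ by at most one in every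
coordinate. -/
def King (N : ℕ) : SimpleGraph (Fin 4 → Fin (N + 1)) where
  Adj f g := f ≠ g ∧ ∀ i, (f i : ℕ) ≤ g i + 1 ∧ (g i : ℕ) ≤ f i + 1
  symm := ⟨fun _ _ h => ⟨h.1.symm, fun i => ⟨(h.2 i).2, (h.2 i).1⟩⟩⟩
  loopless := ⟨fun _ h => h.1 rfl⟩

/-- The sup distance on `{0, …, N}^4`. -/
def supd {N : ℕ} (f g : Fin 4 → Fin (N + 1)) : ℕ :=
  Finset.univ.sup fun i => ((f i : ℕ) - g i) + ((g i : ℕ) - f i)

end Pool.Agent.H33.UN
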