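import Pool.Agent.H33.UN.RLS

/-!
# [H33 UN GE1] Extension in `Gam N` away from two points near a third one; three far points

PROOF. `L = 2 N + 1`.
`ge1`: we use `RL` with `J w x = a` and `J w y = J x y + a` if `J x y ≤ N` (then `J x y = D x y`), and
`J w y = J x y - a` if `J x y > N` (then `J x y = L - D x y ≥ L - 2 M`); the same for `z`. All conditions of `RL`
are linear consequences of `a ≤ M`, `3 M ≤ N`, `D x y, D x z ≤ 2 M`, `J_tri` (three orders), `J_per`, `J_le`:
for the pair `x, y`: `J w y = J x y ± a` is within `a` of `J x y`, perimeter `a + (J x y + a) + J x y ≤ 6 M` in the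
short case and `2 J x y ≤ 4 N` in the long case. For the pair `y, z`, both short: `|J x y - J x z| ≤ J y z`,
`J y z ≤ J x y + J x z + 2 a`, perimeter `≤ 2 (2M + 2M + M) = 10 M ≤ 4 N + 1`. One long (say `y`), one short:
`|J w y - J w z| = J x y - a - J x z - a ≤ J y z`; `J y z ≤ J x y + J x z = J w y + J w z`; perimeter
`J x y + J x z + J y z ≤ 4 N + 1` (`J_per`). Both long: `|J x y - J x z| ≤ J y z`; `J_per` gives
`J y z ≤ 2 L - 1 - J x y - J x z ≤ 4 M - 1` and `J w y + J w z ≥ 2 L - 6 M`; perimeter by `J_per`.
Then `D w x = min(a, L - a) = a`; `D w y = D x y + a` because `D x y + a ≤ 3 M ≤ N`. Everything is `omega` after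
splitting on `J x y ≤ N` and `J x z ≤ N`.
`far3`: `RL` with all three targets equal to `N`: the conditions are `0 ≤ J`, `J ≤ 2 N` (`J_le`) and
`2 N + J ≤ 4 N + 1`. And `D = min(N, N + 1) = N`.
-/

set_option autoImplicit false

namespace Pool.Agent.H33.UN

theorem ge1 {N M : ℕ} (hM : 3 * M ≤ N) (x y z : V N) (a : ℕ) (ha : a ≤ M)
    (hy : D x y ≤ 2 * M) (hz : D x z ≤ 2 * M) :
    ∃ w : V N, D w x = a ∧ D w y = D x y + a ∧ D w z = D x z + a := by
  have t1 := J_tri x y z
  have t2 := J_tri x z y
  have t3 := J_tri y x z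
  have e1 := J_comm z y
  have e2 := J_comm y x
  have p := J_per x y z
  have l1 := J_le x y
  have l2 := J_le x z
  have l3 := J_le y z
  have dy : D x y = min (J x y) (2 * N + 1 - J x y) := rfl
  have dz : D x z = min (J x z) (2 * N + 1 - J x z) := rfl
  have key : ∀ b c : ℕ, (J x y ≤ N → b = J x y + a) → (N < J x y → b + a = J x y) →
      (J x z ≤ N → c = J x z + a) → (N < J x z → c + a = J x z) →
      ∃ w : V N, D w x = a ∧ D w y = D x y + a ∧ D w z = D x z + a := by
    intro b c hb1 hb2 hc1 hc2
    obtain ⟨w, hw1, hw2, hw3⟩ := RL x y z a b c (by omega) (by omega) (by omega) (by omega)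
      (by omega) (by omega) (by omega) (by omega) (by omega) (by omega) (by omega) (by omega)
    refine ⟨w, ?_, ?_, ?_⟩
    · unfold D
      omega
    · rw [dy]
      unfold D
      omega
    · rw [dz]
      unfold D
      omega
  rcases Nat.lt_or_ge N (J x y) with h1 | h1 <;> rcases Nat.lt_or_ge N (J x z) with h2 | h2
  · exact key (J x y - a) (J x z - a) (by omega) (by omega) (by omega) (by omega)
  · exact key (J x y - a) (J x z + a) (by omega) (by omega) (by omega) (by omega)
  · exact key (J x y + a) (J x z - a) (by omega) (by omega) (by omega) (by omega)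
  · exact key (J x y + a) (J x z + a) (by omega) (by omega) (by omega) (by omega)

theorem far3 {N : ℕ} (x y z : V N) : ∃ w : V N, D w x = N ∧ D w y = N ∧ D w z = N := by
  have l1 := J_le x y
  have l2 := J_le x z
  have l3 := J_le y z
  obtain ⟨w, hw1, hw2, hw3⟩ := RL x y z N N N (by omega) (by omega) (by omega) (by omega)
      (by omega) (by omega) (by omega) (by omega) (by omega) (by omega) (by omega) (by omega)
  refine ⟨w, ?_, ?_, ?_⟩ <;> unfold D <;> omega

end Pool.Agent.H33.UN
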