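import Pool.Agent.H33.UN.RLS

/-!
# [H33 UN GE3] Three-point extension in `Gam N` over triples of small perimeter

PROOF. `L = 2 N + 1`, `r = D x y`, `s = D x z`, `t = D y z`; a pair is *short* if its `J` is `≤ N` (then `J = D`),
otherwise *long* (then `J = L - D`, and `D ≥ 1` since `J ≤ 2 N`). We use `RL` with suitable targets.
(i) All three pairs short: targets `(a, b, c)`. Perimeters: `a + b + r ≤ 3 N ≤ 4 N + 1`. `D w x = min(a, L-a) = a`.
(ii) Exactly one long pair, say `y, z`: `L - t = J y z ≤ J x y + J x z = r + s`, so `L ≤ r + s + t ≤ 2 N`,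
impossible. (iii) Three long pairs: `J_per`: `3 L - (r + s + t) ≤ 4 N + 1 = 2 L - 1`, so
`L + 1 ≤ r + s + t ≤ 2 N`, impossible. (Both by omega with `J_tri`, `J_per`, `J_comm`.)
(iv) Two long pairs, say `x, y` and `x, z` long, `y, z` short (the other two cases are the same after
permuting the points: apply the lemma `two_long` below with the points in the right order).
`J_per` gives `(L - r) + (L - s) + t ≤ 2 L - 1`, so `t + 1 ≤ r + s`; also `r, s ≥ 1`.
Option 1 (if `b + 1 ≤ a + r` and `c + 1 ≤ a + s`): targets `(L - a, b, c)`. Pair `x, y`: `L - a ≤ b + (L - r)` iff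
`r ≤ a + b`; `b ≤ (L - a) + (L - r)`; `L - r ≤ (L - a) + b` iff `a ≤ b + r`; perimeter
`(L - a) + b + (L - r) ≤ 2 L - 1` iff `b + 1 ≤ a + r`. Pair `x, z` alike. Pair `y, z`: given, and `b + c + t ≤ 3 N`.
Option 2 (otherwise): targets `(a, L - b, L - c)`. It needs `a + 1 ≤ b + r`, `a + 1 ≤ c + s`, `t + 1 ≤ b + c`
(perimeters) and the given inequalities. These hold: say `b = a + r` (the case `c = a + s` is the same): then
`a + 1 ≤ b + r`; `c ≥ b - t ≥ a + r - (r + s - 1)`, so `c + s ≥ a + 1`; `b + c = r + (a + c) ≥ r + s ≥ t + 1`.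
All by omega. Values: `D w x = min(L - a, a) = a` etc. as `a, b, c ≤ N`.
-/

set_option autoImplicit false

namespace Pool.Agent.H33.UN

/-- The case of two long pairs `x, y` and `x, z`. -/
theorem two_long {N : ℕ} (x y z : V N) (a b c : ℕ) (ha : a ≤ N) (hb : b ≤ N) (hc : c ≤ N)
    (ab1 : a ≤ b + D x y) (ab2 : b ≤ a + D x y) (ab3 : D x y ≤ a + b)
    (ac1 : a ≤ c + D x z) (ac2 : c ≤ a + D x z) (ac3 : D x z ≤ a + c)
    (bc1 : b ≤ c + D y z) (bc2 : c ≤ b + D y z) (bc3 : D y z ≤ b + c)
    (h1 : N < J x y) (h2 : N < J x z) (h3 : J y z ≤ N) :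
    ∃ w : V N, D w x = a ∧ D w y = b ∧ D w z = c := by
  have e1 := J_le x y
  have e2 := J_le x z
  have e3 := J_le y z
  have p := J_per x y z
  have t1 := J_tri x y z
  have t2 := J_tri y x z
  have t3 := J_tri x z y
  have c1 := J_comm y x
  have c2 := J_comm z y
  have dxy : D x y = 2 * N + 1 - J x y := by unfold D; omega
  have dxz : D x z = 2 * N + 1 - J x z := by unfold D; omega
  have dyz : D y z = J y z := by unfold D; omega
  rw [c1] at t2
  rw [c2] at t3
  rw [dxy] at ab1 ab2 ab3
  rw [dxz] at ac1 ac2 ac3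
  rw [dyz] at bc1 bc2 bc3
  by_cases hh : b + 1 ≤ a + (2 * N + 1 - J x y) ∧ c + 1 ≤ a + (2 * N + 1 - J x z)
  · obtain ⟨h4, h5⟩ := hh
    obtain ⟨w, w1, w2, w3⟩ := RL x y z (2 * N + 1 - a) b c (by omega) (by omega) (by omega)
      (by omega) (by omega) (by omega) (by omega) (by omega) (by omega) (by omega) (by omega)
      (by omega)
    refine ⟨w, ?_, ?_, ?_⟩
    · unfold D
      rw [w1]
      omega
    · unfold D
      rw [w2]
      omega
    · unfold D
      rw [w3]
      omega
  · obtain ⟨w, w1, w2, w3⟩ := RL x y z a (2 * N + 1 - b) (2 * N + 1 - c) (by omega) (by omega)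
      (by omega) (by omega) (by omega) (by omega) (by omega) (by omega) (by omega) (by omega)
      (by omega) (by omega)
    refine ⟨w, ?_, ?_, ?_⟩
    · unfold D
      rw [w1]
      omega
    · unfold D
      rw [w2]
      omega
    · unfold D
      rw [w3]
      omega


theorem ge3 {N : ℕ} (x y z : V N) (a b c : ℕ) (ha : a ≤ N) (hb : b ≤ N) (hc : c ≤ N)
    (ab1 : a ≤ b + D x y) (ab2 : b ≤ a + D x y) (ab3 : D x y ≤ a + b)
    (ac1 : a ≤ c + D x z) (ac2 : c ≤ a + D x z) (ac3 : D x z ≤ a + c)
    (bc1 : b ≤ c + D y z) (bc2 : c ≤ b + D y z) (bc3 : D y z ≤ b + c)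
    (hp : D x y + D x z + D y z ≤ 2 * N) :
    ∃ w : V N, D w x = a ∧ D w y = b ∧ D w z = c := by
  have e1 := J_le x y
  have e2 := J_le x z
  have e3 := J_le y z
  have p := J_per x y z
  have t1 := J_tri x y z
  have t2 := J_tri y x z
  have t3 := J_tri x z y
  have c1 := J_comm y x
  have c2 := J_comm z y
  have c3 := J_comm z x
  have hcomm : ∀ u v : V N, D u v = D v u := fun u v => by unfold D; rw [J_comm]
  by_cases h1 : J x y ≤ N
  · by_cases h2 : J x z ≤ N
    · by_cases h3 : J y z ≤ N
      · have dxy : D x y = J x y := by unfold D; omega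
        have dxz : D x z = J x z := by unfold D; omega
        have dyz : D y z = J y z := by unfold D; omega
        rw [dxy] at ab1 ab2 ab3
        rw [dxz] at ac1 ac2 ac3
        rw [dyz] at bc1 bc2 bc3
        obtain ⟨w, w1, w2, w3⟩ := RL x y z a b c (by omega) (by omega) (by omega)
          (by omega) (by omega) (by omega) (by omega) (by omega) (by omega) (by omega) (by omega)
          (by omega)
        refine ⟨w, ?_, ?_, ?_⟩
        · unfold D
          rw [w1]
          omega
        · unfold D
          rw [w2]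
          omega
        · unfold D
          rw [w3]
          omega
      · exfalso
        unfold D at hp
        omega
    · by_cases h3 : J y z ≤ N
      · exfalso
        unfold D at hp
        omega
      · obtain ⟨w, w1, w2, w3⟩ := two_long z x y c a b hc ha hb
          (by rw [hcomm z x]; omega) (by rw [hcomm z x]; omega) (by rw [hcomm z x]; omega)
          (by rw [hcomm z y]; omega) (by rw [hcomm z y]; omega) (by rw [hcomm z y]; omega)
          ab1 ab2 ab3 (by omega) (by omega) h1
        exact ⟨w, w2, w3, w1⟩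
  · by_cases h2 : J x z ≤ N
    · by_cases h3 : J y z ≤ N
      · exfalso
        unfold D at hp
        omega
      · obtain ⟨w, w1, w2, w3⟩ := two_long y x z b a c hb ha hc
          (by rw [hcomm y x]; omega) (by rw [hcomm y x]; omega) (by rw [hcomm y x]; omega)
          bc1 bc2 bc3 ac1 ac2 ac3 (by omega) (by omega) h2
        exact ⟨w, w2, w1, w3⟩
    · by_cases h3 : J y z ≤ N
      · exact two_long x y z a b c ha hb hc ab1 ab2 ab3 ac1 ac2 ac3 bc1 bc2 bc3 (by omega)
          (by omega) h3
      · exfalso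
        unfold D at hp
        omega


end Pool.Agent.H33.UN
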