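import Pool.Agent.H33.UN.RLS

/-!
# [H33 UN GK2] Exact two-point extension in `Gam N`

PROOF. `L = 2 N + 1`, `j = J x y`, `r = D x y = min(j, L - j)`. We apply `RL` to the three points `x, y, y`
(with `J y y = 0`, from `J_zero`) and targets `(a', b', b')`; the conditions for the pair `(y, y)` are trivial
except `2 b' ≤ 4 N + 1 = 2 L - 1`.
Case `j ≤ N` (so `r = j`): `(a', b') = (a, b)`; all conditions by omega (`a, b, r ≤ N`), and `D w x = min(a, L - a)
= a` as `a ≤ N`.
Case `j > N` (so `j = L - r`, `1 ≤ r ≤ N`, since `j ≤ 2 N` by `J_le`) and `b + 1 ≤ a + r`: `(a', b') = (L - a, b)`.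
The conditions are `r ≤ a + b`, `a ≤ b + r` and `b + 1 ≤ a + r`. `D w x = min(L - a, a) = a`.
Case `j > N` and `b + 1 > a + r`, so `b = a + r`: `(a', b') = (a, L - b)`; here `b ≥ 1`, so `2 (L - b) ≤ 2 L - 1`,
and `a + 1 ≤ b + r`. `D w y = min(L - b, b) = b`.
Every inequality is closed by `omega` after `unfold D` and the facts `J_le`, `J_zero`, `J_comm`.
-/

set_option autoImplicit false

namespace Pool.Agent.H33.UN

private theorem gk2_aux {N : ℕ} (x y : V N) (a b : ℕ)
    (h1 : a ≤ b + J x y) (h2 : b ≤ a + J x y) (h3 : J x y ≤ a + b) (h4 : a + b + J x y ≤ 4 * N + 1)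
    (h5 : 2 * b ≤ 4 * N + 1) : ∃ w : V N, J w x = a ∧ J w y = b := by
  have h0 : J y y = 0 := (J_zero y y).2 rfl
  obtain ⟨w, hw1, hw2, -⟩ := RL x y y a b b h1 h2 h3 h4 h1 h2 h3 h4
    (by omega) (by omega) (by omega) (by omega)
  exact ⟨w, hw1, hw2⟩

theorem gam_k2 (N : ℕ) : K2 N (D (N := N)) := by
  intro x y a b ha hb h1 h2 h3
  have hj := J_le x y
  unfold D at h1 h2 h3 ⊢
  by_cases hjN : J x y ≤ N
  · obtain ⟨w, hw1, hw2⟩ := gk2_aux x y a b (by omega) (by omega) (by omega) (by omega) (by omega)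
    exact ⟨w, by rw [hw1]; omega, by rw [hw2]; omega⟩
  · by_cases hc : b + 1 ≤ a + (2 * N + 1 - J x y)
    · obtain ⟨w, hw1, hw2⟩ := gk2_aux x y (2 * N + 1 - a) b (by omega) (by omega) (by omega)
        (by omega) (by omega)
      exact ⟨w, by rw [hw1]; omega, by rw [hw2]; omega⟩
    · obtain ⟨w, hw1, hw2⟩ := gk2_aux x y a (2 * N + 1 - b) (by omega) (by omega) (by omega)
        (by omega) (by omega)
      exact ⟨w, by rw [hw1]; omega, by rw [hw2]; omega⟩

end Pool.Agent.H33.UN
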