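import Pool.Agent.H33.UN.JM

/-!
# [H33 UN GSP] `D` is an integer metric with values at most `N` and `D = 1` is adjacency in `Gam N`

PROOF. Write `L = 2 N + 1`. Symmetry: `J_comm`. `D = 0` iff `J = 0` (because `J ≤ 2 N < L`, `J_le`) iff
`x = y` (`J_zero`). `D ≤ N`: `min(j, L - j) ≤ N` for every `j` (omega). Triangle inequality: unfold `D`, use
`J_tri` for the three orders of the points (with `J_comm`), `J_per` and `J_le`, then `omega`
(for example both `J x y`, `J y z > N`: `D x y + D y z = 2 L - J x y - J y z ≥ J x z + 1`).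
Adjacency: `D x y = 1` iff `J x y = 1` or `J x y = 2 N` (omega with `J ≤ 2 N`, `1 ≤ N`), by `two_J` iff the
symmetric difference has `2` or `4 N` elements, and then `x ≠ y` since otherwise `J = 0`.
-/

set_option autoImplicit false

namespace Pool.Agent.H33.UN

theorem gam_sp {N : ℕ} (hN : 1 ≤ N) : Sp (Gam N) N (D (N := N)) := by
  refine ⟨fun x y => ?_, fun x y => ?_, fun x y => ?_, fun x y z => ?_, fun x y => ?_⟩
  · unfold D
    rw [J_comm x y]
  · rw [← J_zero]
    have h := J_le x y
    unfold D
    omega
  · have h := J_le x y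
    have h2 := two_J x y
    have h0 := J_zero x y
    have hadj : (Gam N).Adj x y ↔
        x ≠ y ∧ ((symmDiff x.1 y.1).card = 2 ∨ (symmDiff x.1 y.1).card = 4 * N) := Iff.rfl
    rw [hadj, ne_eq, ← h0, ← h2]
    unfold D
    omega
  · have h1 := J_tri x y z
    have h2 := J_tri y x z
    have h3 := J_tri x z y
    rw [J_comm y x] at h2
    rw [J_comm z y] at h3
    have h4 := J_per x y z
    have h5 := J_le x y
    have h6 := J_le y z
    have h7 := J_le x z
    unfold D
    omega
  · have h := J_le x y
    unfold D
    omega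

end Pool.Agent.H33.UN
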