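import Pool.Agent.H33.UN.GE3
import Pool.Agent.H33.UN.GE1
import Pool.Agent.H33.UN.GK2
import Pool.Agent.H33.UN.GSP

/-!
# [H33 UN GEP] The truncated three-point extension property of `Gam N` for `3 M ≤ N`

PROOF. `S := gam_sp hN` gives symmetry and the triangle inequality for `D`; `K := gam_k2 N`.
Call a point near if its target is `≤ M`, otherwise its target is `M + 1` (far). The statement is symmetric in
the three points, so it suffices to treat the four cases below and to permute (I suggest one private lemma per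
case, each for the order given here; `Ok M r a b` is symmetric in `a, b`, and `D` is symmetric).
(A) three near points: the conditions `Ok` give the exact conditions of `ge3`, and each `D ≤ a + b ≤ 2 M`, so the
perimeter is at most `6 M ≤ 2 N`. The values found are `≤ M`, so the truncation changes nothing.
(B) `x, y` near, `z` far. If `a + M + 1 ≤ D x z`: take `w` from `K` for `x, y` (targets `a, b`); then
`D w z ≥ D x z - D w x ≥ M + 1`. Same if `b + M + 1 ≤ D y z`. Otherwise `D x z ≤ a + M ≤ 2 M`, `D y z ≤ 2 M`,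
`D x y ≤ a + b ≤ 2 M`; apply `ge3` with `c' = min (D x z + a) (D y z + b)`, which is `≤ 3 M ≤ N` and `≥ M + 1` (by
`Ok`); the exact conditions are easy: `c' ≤ D x z + a`; `D x z ≤ a + c'` (if `c' = D y z + b`:
`D x z ≤ D x y + D y z ≤ a + b + D y z`); `a ≤ c' + D x z` (if `c' = D y z + b`: `a ≤ b + D x y`
`≤ b + D x z + D y z`); the same for `y`.
(C) `x` near, `y, z` far. If `a + M + 1 ≤ D x y` and `a + M + 1 ≤ D x z`: `w` from `K` for `x, x` (targets `a, a`);
triangle inequality. If only `a + M + 1 ≤ D x z`: `D x y ≤ a + M ≤ 2 M`; `w` from `K` for `x, y` with targets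
`a, D x y + a` (`≤ 3 M ≤ N`, and `≥ M + 1` by `Ok`). Same with `y, z` exchanged. Otherwise `D x y, D x z ≤ 2 M` and
`ge1` gives `w` with `D w y = D x y + a ≥ M + 1`, `D w z = D x z + a ≥ M + 1`.
(D) three far points: `far3`; `N ≥ M + 1` because the target `M + 1` is `≤ N` by hypothesis.
-/

set_option autoImplicit false

namespace Pool.Agent.H33.UN

private theorem gep_B {N M : ℕ} (hN : 1 ≤ N) (hM : 3 * M ≤ N) (x y z : V N) (a b : ℕ)
    (ha : a ≤ M) (hb : b ≤ M) (ab1 : a ≤ b + D x y) (ab2 : b ≤ a + D x y) (ab3 : D x y ≤ a + b)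
    (az : M + 1 ≤ a + D x z) (bz : M + 1 ≤ b + D y z) :
    ∃ w : V N, D w x = a ∧ D w y = b ∧ M + 1 ≤ D w z := by
  have S := gam_sp hN
  have t1 := S.tri x z y
  have t2 := S.tri x y z
  have t3 := S.tri y x z
  have s1 := S.symm z y
  have s2 := S.symm y x
  by_cases h1 : a + M + 1 ≤ D x z
  · obtain ⟨w, w1, w2⟩ := gam_k2 N x y a b (by omega) (by omega) ab1 ab2 ab3
    have t4 := S.tri x w z
    have s4 := S.symm x w
    exact ⟨w, w1, w2, by omega⟩
  · by_cases h2 : b + M + 1 ≤ D y z
    · obtain ⟨w, w1, w2⟩ := gam_k2 N x y a b (by omega) (by omega) ab1 ab2 ab3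
      have t4 := S.tri y w z
      have s4 := S.symm y w
      exact ⟨w, w1, w2, by omega⟩
    · obtain ⟨w, w1, w2, w3⟩ := ge3 x y z a b (min (D x z + a) (D y z + b)) (by omega) (by omega)
        (by omega) ab1 ab2 ab3 (by omega) (by omega) (by omega) (by omega) (by omega) (by omega)
        (by omega)
      exact ⟨w, w1, w2, by omega⟩

private theorem gep_C {N M : ℕ} (hN : 1 ≤ N) (hM : 3 * M ≤ N) (x y z : V N) (a : ℕ)
    (ha : a ≤ M) (ay : M + 1 ≤ a + D x y) (az : M + 1 ≤ a + D x z) :
    ∃ w : V N, D w x = a ∧ M + 1 ≤ D w y ∧ M + 1 ≤ D w z := by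
  have S := gam_sp hN
  by_cases h1 : a + M + 1 ≤ D x y
  · by_cases h2 : a + M + 1 ≤ D x z
    · have h0 := (S.zero x x).2 rfl
      obtain ⟨w, w1, w2⟩ := gam_k2 N x x a a (by omega) (by omega) (by omega) (by omega) (by omega)
      have t4 := S.tri x w z
      have t5 := S.tri x w y
      have s4 := S.symm x w
      exact ⟨w, w1, by omega, by omega⟩
    · obtain ⟨w, w1, w2⟩ := gam_k2 N x z a (D x z + a) (by omega) (by omega) (by omega)
        (by omega) (by omega)
      have t5 := S.tri x w y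
      have s4 := S.symm x w
      exact ⟨w, w1, by omega, by omega⟩
  · by_cases h2 : a + M + 1 ≤ D x z
    · obtain ⟨w, w1, w2⟩ := gam_k2 N x y a (D x y + a) (by omega) (by omega) (by omega)
        (by omega) (by omega)
      have t5 := S.tri x w z
      have s4 := S.symm x w
      exact ⟨w, w1, by omega, by omega⟩
    · obtain ⟨w, w1, w2, w3⟩ := ge1 hM x y z a ha (by omega) (by omega)
      exact ⟨w, w1, by omega, by omega⟩

theorem gam_ep3 {N M : ℕ} (hN : 1 ≤ N) (hM : 3 * M ≤ N) : EP3 N M (D (N := N)) := by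
  intro x y z a b c ha hb hc haN hbN hcN hab hac hbc
  have S := gam_sp hN
  have sxy := S.symm x y
  have sxz := S.symm x z
  have syz := S.symm y z
  obtain ⟨ab1, ab2, ab3⟩ := hab
  obtain ⟨ac1, ac2, ac3⟩ := hac
  obtain ⟨bc1, bc2, bc3⟩ := hbc
  by_cases h1 : a ≤ M
  · by_cases h2 : b ≤ M
    · obtain ⟨e1, e2, e3⟩ := ab1 h1 h2
      by_cases h3 : c ≤ M
      · obtain ⟨f1, f2, f3⟩ := ac1 h1 h3
        obtain ⟨g1, g2, g3⟩ := bc1 h2 h3
        obtain ⟨w, w1, w2, w3⟩ := ge3 x y z a b c haN hbN hcN e1 e2 e3 f1 f2 f3 g1 g2 g3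
          (by omega)
        exact ⟨w, by omega, by omega, by omega⟩
      · have e4 := ac2 h1 (by omega)
        have e5 := bc2 h2 (by omega)
        obtain ⟨w, w1, w2, w3⟩ := gep_B hN hM x y z a b h1 h2 e1 e2 e3 e4 e5
        exact ⟨w, by omega, by omega, by omega⟩
    · have e4 := ab2 h1 (by omega)
      by_cases h3 : c ≤ M
      · obtain ⟨f1, f2, f3⟩ := ac1 h1 h3
        have e5 := bc3 h3 (by omega)
        obtain ⟨w, w1, w2, w3⟩ := gep_B hN hM x z y a c h1 h3 f1 f2 f3 e4 (by omega)
        exact ⟨w, by omega, by omega, by omega⟩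
      · have e5 := ac2 h1 (by omega)
        obtain ⟨w, w1, w2, w3⟩ := gep_C hN hM x y z a h1 e4 e5
        exact ⟨w, by omega, by omega, by omega⟩
  · by_cases h2 : b ≤ M
    · have e4 := ab3 h2 (by omega)
      by_cases h3 : c ≤ M
      · obtain ⟨g1, g2, g3⟩ := bc1 h2 h3
        have e5 := ac3 h3 (by omega)
        obtain ⟨w, w1, w2, w3⟩ := gep_B hN hM y z x b c h2 h3 g1 g2 g3 (by omega) (by omega)
        exact ⟨w, by omega, by omega, by omega⟩
      · have e5 := bc2 h2 (by omega)
        obtain ⟨w, w1, w2, w3⟩ := gep_C hN hM y x z b h2 (by omega) e5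
        exact ⟨w, by omega, by omega, by omega⟩
    · by_cases h3 : c ≤ M
      · have e4 := ac3 h3 (by omega)
        have e5 := bc3 h3 (by omega)
        obtain ⟨w, w1, w2, w3⟩ := gep_C hN hM z x y c h3 (by omega) (by omega)
        exact ⟨w, by omega, by omega, by omega⟩
      · obtain ⟨w, w1, w2, w3⟩ := far3 x y z
        exact ⟨w, by omega, by omega, by omega⟩

end Pool.Agent.H33.UN
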