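import Pool.Agent.H33.UN.Defs

/-!
# [H33 UN JM] Facts about `J` (Mathlib only)

PROOF. `two_J`: `(symmDiff x.1 y.1).card` is even, because
`(symmDiff s t).card + 2 * (s ∩ t).card = s.card + t.card` and both cards are even.
`J_le`: a subset of `Fin (4 N + 1)` has at most `4 N + 1` elements and `2 J` is even.
`J_zero`: `J = 0` iff the symmetric difference is empty (`two_J`), iff `x.1 = y.1` (`symmDiff_eq_bot`).
`J_tri`: `symmDiff x z ⊆ symmDiff x y ∪ symmDiff y z` (`symmDiff_triangle`), `card_le_card`, `card_union_le`.
`J_per`: every element `i` lies in an even number (so in at most two) of the three sets `symmDiff x y`,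
`symmDiff y z`, `symmDiff x z`; so the three cards sum to at most `2 (4 N + 1)`. (Write each card as
`∑ i, if i ∈ … then 1 else 0` and compare the summands, `by_cases` on `i ∈ x.1`, `i ∈ y.1`, `i ∈ z.1`; or:
`symmDiff x z` is disjoint from the intersection of the other two and all three lie in the complement of …;
any way is fine.)
-/

set_option autoImplicit false

namespace Pool.Agent.H33.UN

variable {N : ℕ}

private theorem jm_card {n : ℕ} (s t : Finset (Fin n)) :
    (symmDiff s t).card + 2 * (s ∩ t).card = s.card + t.card := by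
  have h1 : (symmDiff s t).card = (s \ t).card + (t \ s).card := by
    rw [symmDiff_def, Finset.sup_eq_union, Finset.card_union_of_disjoint]
    exact disjoint_sdiff_sdiff
  have h2 := Finset.card_sdiff_add_card_inter s t
  have h3 := Finset.card_sdiff_add_card_inter t s
  rw [Finset.inter_comm t s] at h3
  omega

theorem two_J (x y : V N) : 2 * J x y = (symmDiff x.1 y.1).card := by
  unfold J
  have h := jm_card x.1 y.1
  obtain ⟨a, ha⟩ := x.2
  obtain ⟨b, hb⟩ := y.2
  omega

theorem J_comm (x y : V N) : J x y = J y x := by
  unfold J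
  rw [symmDiff_comm]

theorem J_zero (x y : V N) : J x y = 0 ↔ x = y := by
  have h := two_J x y
  constructor
  · intro h0
    rw [h0, mul_zero] at h
    have h1 := Finset.card_eq_zero.1 h.symm
    rw [← Finset.bot_eq_empty, symmDiff_eq_bot] at h1
    exact Subtype.ext h1
  · intro h0
    rw [h0, symmDiff_self, Finset.bot_eq_empty, Finset.card_empty] at h
    rw [h0]
    omega

theorem J_le (x y : V N) : J x y ≤ 2 * N := by
  have h := two_J x y
  have h1 := Finset.card_le_univ (symmDiff x.1 y.1)
  rw [Fintype.card_fin] at h1
  omega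

theorem J_tri (x y z : V N) : J x z ≤ J x y + J y z := by
  have h1 := two_J x y
  have h2 := two_J y z
  have h3 := two_J x z
  have h4 : (symmDiff x.1 z.1).card ≤ (symmDiff x.1 y.1).card + (symmDiff y.1 z.1).card := by
    refine (Finset.card_le_card ?_).trans (Finset.card_union_le _ _)
    exact symmDiff_triangle x.1 y.1 z.1
  omega

theorem J_per (x y z : V N) : J x y + J y z + J x z ≤ 4 * N + 1 := by
  have h1 := two_J x y
  have h2 := two_J y z
  have h3 := two_J x z
  have h4 : (symmDiff x.1 y.1).card + (symmDiff y.1 z.1).card + (symmDiff x.1 z.1).card ≤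
      2 * (4 * N + 1) := by
    have hc : ∀ s : Finset (Fin (4 * N + 1)), s.card = ∑ i, if i ∈ s then 1 else 0 := by
      intro s
      simp
    rw [hc (symmDiff x.1 y.1), hc (symmDiff y.1 z.1), hc (symmDiff x.1 z.1),
      ← Finset.sum_add_distrib, ← Finset.sum_add_distrib]
    calc _ ≤ ∑ _i : Fin (4 * N + 1), 2 := by
          refine Finset.sum_le_sum fun i _ => ?_
          simp only [Finset.mem_symmDiff]
          by_cases a : i ∈ x.1 <;> by_cases b : i ∈ y.1 <;> by_cases c : i ∈ z.1 <;> simp [a, b, c]
      _ = 2 * (4 * N + 1) := by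
          rw [Finset.sum_const, Finset.card_univ, Fintype.card_fin, smul_eq_mul, mul_comm]
  omega

end Pool.Agent.H33.UN
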