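import Pool.Agent.H33.UN.Defs

/-!
# [H33 UN KNG] The king graph on `{0, …, N}^4`: its distance is the sup distance (Mathlib only)

PROOF. `supd_le_length`: induction on the walk. `nil`: `supd f f = 0`. `cons h p` with `h : f ~ f'`: for every
coordinate `|f i - g i| ≤ |f i - f' i| + |f' i - g i| ≤ 1 + supd f' g ≤ 1 + p.length` (`Finset.sup_le`,
`Finset.le_sup`).
`exists_walk`: induction on `k = supd f g`. If `k = 0` then `f = g` (every coordinate is equal, `Fin.ext`), take
`nil`. Otherwise let `f' i = f i + 1` if `f i < g i`, `f i - 1` if `f i > g i`, `f i` if equal (values in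
`Fin (N + 1)`: they lie between `f i` and `g i`). Then `f' ≠ f` (some coordinate differs), `f ~ f'`, and
`supd f' g = k - 1` (every nonzero difference drops by one). Prepend the edge.
`king_edist`: `edist = supd` from the two (`SimpleGraph.edist_le`, and `SimpleGraph.exists_walk_of_edist_ne_top` or
`le_iInf` for the lower bound). `king_conn`: every two vertices are joined by a walk. `king_ediam`, `1 ≤ N`:
`edist ≤ N` since `supd ≤ N`, and the constant functions `0` and `N` (`Fin.last N`) have `supd = N`
(`SimpleGraph.ediam_le_of_edist_le`-like lemma / `iSup` bounds, `SimpleGraph.edist_le_ediam`).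
-/

set_option autoImplicit false

namespace Pool.Agent.H33.UN

private theorem supd_le_iff {N : ℕ} (f g : Fin 4 → Fin (N + 1)) (k : ℕ) :
    supd f g ≤ k ↔ ∀ i, ((f i : ℕ) - g i) + ((g i : ℕ) - f i) ≤ k := by
  unfold supd
  rw [Finset.sup_le_iff]
  simp

private theorem le_supd {N : ℕ} (f g : Fin 4 → Fin (N + 1)) (i : Fin 4) :
    ((f i : ℕ) - g i) + ((g i : ℕ) - f i) ≤ supd f g :=
  (supd_le_iff f g _).1 le_rfl i

theorem supd_le_length {N : ℕ} {f g : Fin 4 → Fin (N + 1)} (p : (King N).Walk f g) :
    supd f g ≤ p.length := by
  induction p with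
  | nil =>
    rw [supd_le_iff]
    intro i
    omega
  | @cons u v w h p ih =>
    rw [supd_le_iff, SimpleGraph.Walk.length_cons]
    intro i
    have h1 := h.2 i
    have h2 := le_supd v w i
    omega

private def stp {N : ℕ} (f g : Fin 4 → Fin (N + 1)) : Fin 4 → Fin (N + 1) := fun i =>
  if h : (f i : ℕ) < g i then ⟨f i + 1, by have := (g i).2; omega⟩
  else ⟨(f i : ℕ) - (if (g i : ℕ) < f i then 1 else 0), by have := (f i).2; omega⟩

private theorem stp_val {N : ℕ} (f g : Fin 4 → Fin (N + 1)) (i : Fin 4) :
    ((f i : ℕ) < g i ∧ (stp f g i : ℕ) = f i + 1) ∨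
      ((g i : ℕ) < f i ∧ (stp f g i : ℕ) = f i - 1) ∨
        ((f i : ℕ) = g i ∧ (stp f g i : ℕ) = f i) := by
  by_cases h : (f i : ℕ) < g i
  · left
    refine ⟨h, ?_⟩
    simp only [stp, dif_pos h]
  · right
    by_cases h2 : (g i : ℕ) < f i
    · left
      refine ⟨h2, ?_⟩
      simp only [stp, dif_neg h, if_pos h2]
    · right
      refine ⟨by omega, ?_⟩
      simp only [stp, dif_neg h, if_neg h2, Nat.sub_zero]

theorem exists_walk {N : ℕ} (f g : Fin 4 → Fin (N + 1)) :
    ∃ p : (King N).Walk f g, p.length = supd f g := by
  induction hk : supd f g generalizing f with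
  | zero =>
    have h : f = g := by
      funext i
      apply Fin.ext
      have := le_supd f g i
      omega
    subst h
    exact ⟨.nil, rfl⟩
  | succ k ih =>
    have h1 : supd (stp f g) g = k := by
      apply le_antisymm
      · rw [supd_le_iff]
        intro i
        have h2 := stp_val f g i
        have h3 := le_supd f g i
        omega
      · by_contra hlt
        rw [not_le] at hlt
        have h2 : supd f g ≤ k := by
          rw [supd_le_iff]
          intro i
          have h3 := stp_val f g i
          have h4 := le_supd (stp f g) g i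
          omega
        omega
    obtain ⟨p, hp⟩ := ih (stp f g) h1
    have hadj : (King N).Adj f (stp f g) := by
      refine ⟨?_, ?_⟩
      · intro h
        rw [← h] at h1
        omega
      · intro i
        have h2 := stp_val f g i
        omega
    exact ⟨.cons hadj p, by rw [SimpleGraph.Walk.length_cons, hp]⟩

theorem king_edist {N : ℕ} (f g : Fin 4 → Fin (N + 1)) :
    (King N).edist f g = (supd f g : ℕ∞) := by
  obtain ⟨p, hp⟩ := exists_walk f g
  apply le_antisymm
  · rw [← hp]
    exact SimpleGraph.edist_le p
  · unfold SimpleGraph.edist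
    refine le_iInf fun q => ?_
    exact_mod_cast supd_le_length q

theorem king_conn (N : ℕ) : (King N).Connected := by
  haveI : Nonempty (Fin 4 → Fin (N + 1)) := ⟨fun _ => 0⟩
  refine ⟨?_⟩
  intro f g
  obtain ⟨p, _⟩ := exists_walk f g
  exact ⟨p⟩

theorem king_ediam (N : ℕ) : (King N).ediam = (N : ℕ∞) := by
  apply le_antisymm
  · apply SimpleGraph.ediam_le_of_edist_le
    intro f g
    rw [king_edist]
    have : supd f g ≤ N := by
      rw [supd_le_iff]
      intro i
      have h1 := (f i).2
      have h2 := (g i).2
      omega
    exact_mod_cast this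
  · have h : (King N).edist (fun _ => 0) (fun _ => Fin.last N) = (N : ℕ∞) := by
      rw [king_edist]
      have : supd (fun _ => (0 : Fin (N + 1))) (fun _ => Fin.last N) = N := by
        apply le_antisymm
        · rw [supd_le_iff]
          intro i
          simp
        · have := le_supd (fun _ => (0 : Fin (N + 1))) (fun _ => Fin.last N) 0
          simpa using this
      rw [this]
    rw [← h]
    exact SimpleGraph.edist_le_ediam

end Pool.Agent.H33.UN
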