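import Pool.Agent.H33.UN.Defs

/-!
# [H33 UN RLN] Numerical part of the realisation lemma (Mathlib only)

PROOF. Work in the integers. Put `α = a - b + u`, `β = a - c + v`, `γ = b + c - t`; all three are `≥ 0`.
We look for `p' = x`, `q' = α - x`, `r' = β - x`, `o' = γ - p + x`. The three sums are then right:
`p' + q' + r' + o' = α + β + γ - p = 2 a + u + v - t - p = 2 a` because `2 p = (p+q) + (p+r) - (q+r)`, that is
`p = u + v - t`; similarly `q = u + t - v`, `r = v + t - u`, and
`(p - p') + (q - q') + r' + o' = p + q - α + β - x + γ - p + x = q - α + β + γ = 2 b`, the third one alike.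
The conditions are `0 ≤ x ≤ p`, `0 ≤ α - x ≤ q`, `0 ≤ β - x ≤ r`, `0 ≤ γ - p + x ≤ o`, that is
`max(0, α - q, β - r, p - γ) ≤ x ≤ min(p, α, β, o - γ + p)`; every lower bound is at most every upper bound
by the hypotheses (linear arithmetic). So `x = max(0, α - q, β - r, p - γ)` works.
In Lean: `obtain` the value `x := max (max 0 (α - q)) (max (β - r) (p - γ))` in `ℤ` (or give a case
distinction which of the four is the largest), then everything by `omega`. With natural subtraction:
`x = max (max 0 ((a + u) - b - q)) (max ((a + v) - c - r) (p + t - (b + c)))` (all subtractions truncated) and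
`omega` closes every goal after `p = u + v - t` etc. (let `omega` find these).
-/

set_option autoImplicit false

namespace Pool.Agent.H33.UN

theorem rl_num (n p q r o u v t a b c : ℕ) (h1 : p + q = 2 * u) (h2 : p + r = 2 * v)
    (h3 : q + r = 2 * t) (h4 : p + q + r + o = n)
    (ab1 : a ≤ b + u) (ab2 : b ≤ a + u) (ab3 : u ≤ a + b) (ab4 : a + b + u ≤ n)
    (ac1 : a ≤ c + v) (ac2 : c ≤ a + v) (ac3 : v ≤ a + c) (ac4 : a + c + v ≤ n)
    (bc1 : b ≤ c + t) (bc2 : c ≤ b + t) (bc3 : t ≤ b + c) (bc4 : b + c + t ≤ n) :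
    ∃ p' q' r' o' : ℕ, p' ≤ p ∧ q' ≤ q ∧ r' ≤ r ∧ o' ≤ o ∧
      p' + q' + r' + o' = 2 * a ∧ (p - p') + (q - q') + r' + o' = 2 * b ∧
      (p - p') + (r - r') + q' + o' = 2 * c := by
  obtain ⟨x, hx⟩ : ∃ x : ℕ, x = max (max 0 ((a + u) - b - q)) (max ((a + v) - c - r)
      (p + t - (b + c))) := ⟨_, rfl⟩
  have hp : p + t = u + v := by omega
  have hq : q + v = u + t := by omega
  have hr : r + u = v + t := by omega
  have l1 : a + u ≤ x + b + q := by omega
  have l2 : a + v ≤ x + c + r := by omega
  have l3 : p + t ≤ x + b + c := by omega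
  have hc : x = 0 ∨ a + u = x + b + q ∨ a + v = x + c + r ∨ p + t = x + b + c := by omega
  have u1 : x ≤ p := by
    rcases hc with h | h | h | h <;> omega
  have u2 : x + b ≤ a + u := by
    rcases hc with h | h | h | h <;> omega
  have u3 : x + c ≤ a + v := by
    rcases hc with h | h | h | h <;> omega
  have u4 : b + c + x ≤ p + t + o := by
    rcases hc with h | h | h | h <;> omega
  exact ⟨x, a + u - b - x, a + v - c - x, b + c + x - t - p, by omega, by omega, by omega,
    by omega, by omega, by omega, by omega⟩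

end Pool.Agent.H33.UN
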