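import Pool.Agent.H33.UN.RLN
import Pool.Agent.H33.UN.JM

/-!
# [H33 UN RLS] The realisation lemma

PROOF. Let `A = symmDiff x y`, `B = symmDiff x z` (subsets of `Fin (4 N + 1)`), `P = A ∩ B`, `Q = A \ B`,
`R = B \ A`, `O = (A ∪ B)ᶜ`, with cards `p, q, r, o`. Then `symmDiff y z = symmDiff A B = Q ∪ R`
(`symmDiff_symmDiff_…`: `symmDiff (symmDiff x y) (symmDiff x z) = symmDiff y z`), so `p + q = 2 J x y`,
`p + r = 2 J x z`, `q + r = 2 J y z` (`two_J`) and `p + q + r + o = 4 N + 1`. Take `p', q', r', o'` from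
`rl_num` with `n = 4 N + 1`, `u = J x y`, `v = J x z`, `t = J y z`, choose subsets `P' ⊆ P`, `Q' ⊆ Q`, `R' ⊆ R`,
`O' ⊆ O` with these cards (`Finset.exists_subset_card_eq`), `T = P' ∪ Q' ∪ R' ∪ O'` and `w = symmDiff x T`. The
four sets `P, Q, R, O` are pairwise disjoint, so `T.card = 2 a`; `w.card` is even since
`(symmDiff x T).card + 2 (x ∩ T).card = x.card + T.card`. Finally `symmDiff w x = T`,
`symmDiff w y = symmDiff T A` has card `(p - p') + (q - q') + r' + o' = 2 b` and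
`symmDiff w z = symmDiff T B` has card `(p - p') + (r - r') + q' + o' = 2 c`. Divide by two.
-/

set_option autoImplicit false

namespace Pool.Agent.H33.UN

private theorem rls_part {α : Type} [Fintype α] [DecidableEq α] (A B S : Finset α) :
    S.card = (S ∩ (A ∩ B)).card + (S ∩ (A \ B)).card + (S ∩ (B \ A)).card +
      (S ∩ (A ∪ B)ᶜ).card := by
  have h1 := Finset.card_inter_add_card_sdiff S A
  have h2 := Finset.card_inter_add_card_sdiff (S ∩ A) B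
  have h3 := Finset.card_inter_add_card_sdiff (S \ A) B
  have e1 : (S ∩ A) ∩ B = S ∩ (A ∩ B) := by
    ext i
    simp only [Finset.mem_inter]
    tauto
  have e2 : (S ∩ A) \ B = S ∩ (A \ B) := by
    ext i
    simp only [Finset.mem_inter, Finset.mem_sdiff]
    tauto
  have e3 : (S \ A) ∩ B = S ∩ (B \ A) := by
    ext i
    simp only [Finset.mem_inter, Finset.mem_sdiff]
    tauto
  have e4 : (S \ A) \ B = S ∩ (A ∪ B)ᶜ := by
    ext i
    simp only [Finset.mem_inter, Finset.mem_sdiff, Finset.mem_compl, Finset.mem_union]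
    tauto
  rw [e1, e2] at h2
  rw [e3, e4] at h3
  omega

private theorem rls_pr (A B P Q R O T : Prop) (mP : P → A ∧ B) (mQ : Q → A ∧ ¬B)
    (mR : R → B ∧ ¬A) (mO : O → ¬A ∧ ¬B) (mT : T ↔ P ∨ Q ∨ R ∨ O) :
    (T ∧ A ∧ B ↔ P) ∧ (T ∧ A ∧ ¬B ↔ Q) ∧ (T ∧ B ∧ ¬A ↔ R) ∧ (T ∧ ¬(A ∨ B) ↔ O) ∧
    ((T ∧ ¬A ∨ A ∧ ¬T) ∧ A ∧ B ↔ (A ∧ B) ∧ ¬P) ∧
    ((T ∧ ¬A ∨ A ∧ ¬T) ∧ A ∧ ¬B ↔ (A ∧ ¬B) ∧ ¬Q) ∧
    ((T ∧ ¬A ∨ A ∧ ¬T) ∧ B ∧ ¬A ↔ R) ∧ ((T ∧ ¬A ∨ A ∧ ¬T) ∧ ¬(A ∨ B) ↔ O) ∧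
    ((T ∧ ¬B ∨ B ∧ ¬T) ∧ A ∧ B ↔ (A ∧ B) ∧ ¬P) ∧
    ((T ∧ ¬B ∨ B ∧ ¬T) ∧ A ∧ ¬B ↔ Q) ∧
    ((T ∧ ¬B ∨ B ∧ ¬T) ∧ B ∧ ¬A ↔ (B ∧ ¬A) ∧ ¬R) ∧
    ((T ∧ ¬B ∨ B ∧ ¬T) ∧ ¬(A ∨ B) ↔ O) := by
  by_cases hA : A <;> by_cases hB : B <;> simp_all

private theorem rls_symm {α : Type} [DecidableEq α] (s t : Finset α) :
    (symmDiff s t).card + 2 * (s ∩ t).card = s.card + t.card := by
  have h1 := Finset.card_inter_add_card_sdiff s t
  have h2 := Finset.card_inter_add_card_sdiff t s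
  have h3 : (symmDiff s t).card = (s \ t).card + (t \ s).card := by
    rw [← Finset.card_union_of_disjoint disjoint_sdiff_sdiff]
    rfl
  rw [Finset.inter_comm t s] at h2
  omega

theorem RL {N : ℕ} (x y z : V N) (a b c : ℕ)
    (ab1 : a ≤ b + J x y) (ab2 : b ≤ a + J x y) (ab3 : J x y ≤ a + b) (ab4 : a + b + J x y ≤ 4 * N + 1)
    (ac1 : a ≤ c + J x z) (ac2 : c ≤ a + J x z) (ac3 : J x z ≤ a + c) (ac4 : a + c + J x z ≤ 4 * N + 1)
    (bc1 : b ≤ c + J y z) (bc2 : c ≤ b + J y z) (bc3 : J y z ≤ b + c) (bc4 : b + c + J y z ≤ 4 * N + 1) :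
    ∃ w : V N, J w x = a ∧ J w y = b ∧ J w z = c := by
  obtain ⟨A, hA⟩ : ∃ A, A = symmDiff x.1 y.1 := ⟨_, rfl⟩
  obtain ⟨B, hB⟩ : ∃ B, B = symmDiff x.1 z.1 := ⟨_, rfl⟩
  have hAc : A.card = 2 * J x y := by rw [hA, two_J]
  have hBc : B.card = 2 * J x z := by rw [hB, two_J]
  have hyz : symmDiff y.1 z.1 = symmDiff A B := by
    rw [hA, hB, symmDiff_comm x.1 y.1, symmDiff_assoc, symmDiff_symmDiff_cancel_left]
  have h1 := rls_part A B A
  have h2 := rls_part A B B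
  have h3 := rls_part A B (symmDiff A B)
  have h4 := rls_part A B Finset.univ
  have a1 : A ∩ (A ∩ B) = A ∩ B := by ext i; simp only [Finset.mem_inter]; tauto
  have a2 : A ∩ (A \ B) = A \ B := by
    ext i; simp only [Finset.mem_inter, Finset.mem_sdiff]; tauto
  have a3 : A ∩ (B \ A) = ∅ := by
    ext i; simp only [Finset.mem_inter, Finset.mem_sdiff, Finset.notMem_empty]; tauto
  have a4 : A ∩ (A ∪ B)ᶜ = ∅ := by
    ext i
    simp only [Finset.mem_inter, Finset.mem_compl, Finset.mem_union, Finset.notMem_empty]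
    tauto
  have b1 : B ∩ (A ∩ B) = A ∩ B := by ext i; simp only [Finset.mem_inter]; tauto
  have b2 : B ∩ (A \ B) = ∅ := by
    ext i; simp only [Finset.mem_inter, Finset.mem_sdiff, Finset.notMem_empty]; tauto
  have b3 : B ∩ (B \ A) = B \ A := by
    ext i; simp only [Finset.mem_inter, Finset.mem_sdiff]; tauto
  have b4 : B ∩ (A ∪ B)ᶜ = ∅ := by
    ext i
    simp only [Finset.mem_inter, Finset.mem_compl, Finset.mem_union, Finset.notMem_empty]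
    tauto
  have c1 : symmDiff A B ∩ (A ∩ B) = ∅ := by
    ext i; simp only [Finset.mem_inter, Finset.mem_symmDiff, Finset.notMem_empty]; tauto
  have c2 : symmDiff A B ∩ (A \ B) = A \ B := by
    ext i; simp only [Finset.mem_inter, Finset.mem_sdiff, Finset.mem_symmDiff]; tauto
  have c3 : symmDiff A B ∩ (B \ A) = B \ A := by
    ext i; simp only [Finset.mem_inter, Finset.mem_sdiff, Finset.mem_symmDiff]; tauto
  have c4 : symmDiff A B ∩ (A ∪ B)ᶜ = ∅ := by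
    ext i
    simp only [Finset.mem_inter, Finset.mem_compl, Finset.mem_union, Finset.notMem_empty,
      Finset.mem_symmDiff]
    tauto
  rw [a1, a2, a3, a4, Finset.card_empty, add_zero, add_zero, hAc] at h1
  rw [b1, b2, b3, b4, Finset.card_empty, add_zero, add_zero, hBc] at h2
  rw [c1, c2, c3, c4, Finset.card_empty, add_zero, zero_add, ← hyz, ← two_J] at h3
  simp only [Finset.univ_inter, Finset.card_univ, Fintype.card_fin] at h4
  obtain ⟨p', q', r', o', hp, hq, hr, ho, ha, hb, hc⟩ := rl_num (4 * N + 1) (A ∩ B).card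
    (A \ B).card (B \ A).card (A ∪ B)ᶜ.card (J x y) (J x z) (J y z) a b c h1.symm h2.symm h3.symm
    h4.symm ab1 ab2 ab3 ab4 ac1 ac2 ac3 ac4 bc1 bc2 bc3 bc4
  obtain ⟨P, hP, hPc⟩ := Finset.exists_subset_card_eq hp
  obtain ⟨Q, hQ, hQc⟩ := Finset.exists_subset_card_eq hq
  obtain ⟨R, hR, hRc⟩ := Finset.exists_subset_card_eq hr
  obtain ⟨O, hO, hOc⟩ := Finset.exists_subset_card_eq ho
  obtain ⟨T, hT⟩ : ∃ T, T = P ∪ Q ∪ R ∪ O := ⟨_, rfl⟩
  have mP : ∀ i, i ∈ P → i ∈ A ∧ i ∈ B := fun i hi => Finset.mem_inter.1 (hP hi)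
  have mQ : ∀ i, i ∈ Q → i ∈ A ∧ i ∉ B := fun i hi => Finset.mem_sdiff.1 (hQ hi)
  have mR : ∀ i, i ∈ R → i ∈ B ∧ i ∉ A := fun i hi => Finset.mem_sdiff.1 (hR hi)
  have mO : ∀ i, i ∈ O → i ∉ A ∧ i ∉ B := fun i hi => by
    have := Finset.mem_compl.1 (hO hi)
    rw [Finset.mem_union] at this
    tauto
  have mT : ∀ i, i ∈ T ↔ i ∈ P ∨ i ∈ Q ∨ i ∈ R ∨ i ∈ O := by
    intro i
    rw [hT]
    simp only [Finset.mem_union]
    tauto
  have t0 := rls_part A B T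
  have t1 := rls_part A B (symmDiff T A)
  have t2 := rls_part A B (symmDiff T B)
  have d1 : T ∩ (A ∩ B) = P := by
    ext i
    simp only [Finset.mem_inter]
    exact (rls_pr _ _ _ _ _ _ _ (mP i) (mQ i) (mR i) (mO i) (mT i)).1
  have d2 : T ∩ (A \ B) = Q := by
    ext i
    simp only [Finset.mem_inter, Finset.mem_sdiff]
    exact (rls_pr _ _ _ _ _ _ _ (mP i) (mQ i) (mR i) (mO i) (mT i)).2.1
  have d3 : T ∩ (B \ A) = R := by
    ext i
    simp only [Finset.mem_inter, Finset.mem_sdiff]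
    exact (rls_pr _ _ _ _ _ _ _ (mP i) (mQ i) (mR i) (mO i) (mT i)).2.2.1
  have d4 : T ∩ (A ∪ B)ᶜ = O := by
    ext i
    simp only [Finset.mem_inter, Finset.mem_compl, Finset.mem_union]
    exact (rls_pr _ _ _ _ _ _ _ (mP i) (mQ i) (mR i) (mO i) (mT i)).2.2.2.1
  have e1 : symmDiff T A ∩ (A ∩ B) = (A ∩ B) \ P := by
    ext i
    simp only [Finset.mem_inter, Finset.mem_symmDiff, Finset.mem_sdiff]
    exact (rls_pr _ _ _ _ _ _ _ (mP i) (mQ i) (mR i) (mO i) (mT i)).2.2.2.2.1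
  have e2 : symmDiff T A ∩ (A \ B) = (A \ B) \ Q := by
    ext i
    simp only [Finset.mem_inter, Finset.mem_symmDiff, Finset.mem_sdiff]
    exact (rls_pr _ _ _ _ _ _ _ (mP i) (mQ i) (mR i) (mO i) (mT i)).2.2.2.2.2.1
  have e3 : symmDiff T A ∩ (B \ A) = R := by
    ext i
    simp only [Finset.mem_inter, Finset.mem_symmDiff, Finset.mem_sdiff]
    exact (rls_pr _ _ _ _ _ _ _ (mP i) (mQ i) (mR i) (mO i) (mT i)).2.2.2.2.2.2.1
  have e4 : symmDiff T A ∩ (A ∪ B)ᶜ = O := by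
    ext i
    simp only [Finset.mem_inter, Finset.mem_symmDiff, Finset.mem_compl, Finset.mem_union]
    exact (rls_pr _ _ _ _ _ _ _ (mP i) (mQ i) (mR i) (mO i) (mT i)).2.2.2.2.2.2.2.1
  have f1 : symmDiff T B ∩ (A ∩ B) = (A ∩ B) \ P := by
    ext i
    simp only [Finset.mem_inter, Finset.mem_symmDiff, Finset.mem_sdiff]
    exact (rls_pr _ _ _ _ _ _ _ (mP i) (mQ i) (mR i) (mO i) (mT i)).2.2.2.2.2.2.2.2.1
  have f2 : symmDiff T B ∩ (A \ B) = Q := by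
    ext i
    simp only [Finset.mem_inter, Finset.mem_symmDiff, Finset.mem_sdiff]
    exact (rls_pr _ _ _ _ _ _ _ (mP i) (mQ i) (mR i) (mO i) (mT i)).2.2.2.2.2.2.2.2.2.1
  have f3 : symmDiff T B ∩ (B \ A) = (B \ A) \ R := by
    ext i
    simp only [Finset.mem_inter, Finset.mem_symmDiff, Finset.mem_sdiff]
    exact (rls_pr _ _ _ _ _ _ _ (mP i) (mQ i) (mR i) (mO i) (mT i)).2.2.2.2.2.2.2.2.2.2.1
  have f4 : symmDiff T B ∩ (A ∪ B)ᶜ = O := by
    ext i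
    simp only [Finset.mem_inter, Finset.mem_symmDiff, Finset.mem_compl, Finset.mem_union]
    exact (rls_pr _ _ _ _ _ _ _ (mP i) (mQ i) (mR i) (mO i) (mT i)).2.2.2.2.2.2.2.2.2.2.2
  rw [d1, d2, d3, d4, hPc, hQc, hRc, hOc] at t0
  rw [e1, e2, e3, e4, Finset.card_sdiff_of_subset hP, Finset.card_sdiff_of_subset hQ, hPc, hQc,
    hRc, hOc] at t1
  rw [f1, f2, f3, f4, Finset.card_sdiff_of_subset hP, Finset.card_sdiff_of_subset hR, hPc, hQc,
    hRc, hOc] at t2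
  have hw : Even (symmDiff x.1 T).card := by
    have h5 := rls_symm x.1 T
    obtain ⟨k, hk⟩ := x.2
    rw [Nat.even_iff]
    omega
  refine ⟨⟨symmDiff x.1 T, hw⟩, ?_, ?_, ?_⟩
  · have h5 : symmDiff (symmDiff x.1 T) x.1 = T := by
      rw [symmDiff_comm, symmDiff_symmDiff_cancel_left]
    unfold J
    dsimp only
    rw [h5]
    omega
  · have h5 : symmDiff (symmDiff x.1 T) y.1 = symmDiff T A := by
      rw [symmDiff_comm x.1 T, symmDiff_assoc, hA]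
    unfold J
    dsimp only
    rw [h5]
    omega
  · have h5 : symmDiff (symmDiff x.1 T) z.1 = symmDiff T B := by
      rw [symmDiff_comm x.1 T, symmDiff_assoc, hB]
    unfold J
    dsimp only
    rw [h5]
    omega

end Pool.Agent.H33.UN
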