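import Pool.Agent.H33.UN.Defs

/-!
# [H33 UN STP] One step of the game

PROOF. Put `a i = min (dX w (x i)) (M + 1)`. Then `a i ≤ M + 1` and `a i ≤ N` (`hX.le`). For `i, j ∈ F` the condition
`Ok M (dY (y i) (y j)) (a i) (a j)` holds: if `a i, a j ≤ M` then `a i = dX w (x i)`, `a j = dX w (x j)` and
`dX (x i) (x j) ≤ 2 M` by the triangle inequality, so `dY (y i) (y j) = dX (x i) (x j)` by `he`, and the three
inequalities are triangle inequalities in `X`. If `a i ≤ M`, `a j = M + 1`: `dX w (x j) ≥ M + 1`, so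
`dX (x i) (x j) ≥ M + 1 - a i`, and by `he` also `dY (y i) (y j) ≥ M + 1 - a i` (as `M + 1 - a i ≤ 2 M + 1`). The
third part is the same with `i, j` exchanged (symmetry of `dX`). Apply `h`. Everything is omega.
-/

set_option autoImplicit false

namespace Pool.Agent.H33.UN

theorem step {X Y : Type} {GX : SimpleGraph X} {GY : SimpleGraph Y} {N : ℕ} {dX : X → X → ℕ}
    {dY : Y → Y → ℕ} (hX : Sp GX N dX) (hY : Sp GY N dY) {s M : ℕ} (h : EPF N s M dY) {n : ℕ}
    (F : Finset (Fin n)) (hF : F.card ≤ s) (x : Fin n → X) (y : Fin n → Y)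
    (he : ∀ i ∈ F, ∀ j ∈ F, min (dX (x i) (x j)) (2 * M + 1) = min (dY (y i) (y j)) (2 * M + 1))
    (w : X) : ∃ w' : Y, ∀ i ∈ F, min (dY w' (y i)) (M + 1) = min (dX w (x i)) (M + 1) := by
  have h1 := h n F hF y (fun i => min (dX w (x i)) (M + 1)) (fun i _ => min_le_right _ _)
    (fun i _ => (min_le_left _ _).trans (hX.le _ _)) ?_
  · exact h1
  · intro i hi j hj
    have e := he i hi j hj
    have t1 := hX.tri w (x i) (x j)
    have t2 := hX.tri w (x j) (x i)
    have t3 := hX.tri (x i) w (x j)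
    have s1 := hX.symm (x i) (x j)
    have s2 := hX.symm (x i) w
    simp only [Ok]
    refine ⟨fun a b => ⟨?_, ?_, ?_⟩, fun a b => ?_, fun a b => ?_⟩ <;> omega

end Pool.Agent.H33.UN
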