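import Pool.Agent.H33.UN.KNG

/-!
# [H33 UN UNI] The universal graph contains every metric on four points with values in `0, …, N`

PROOF. `univ_king`: let `e : (Fin 4 → Fin (N + 1)) ≃ Fin n`, `n = Fintype.card _` (`Fintype.equivFin`), and
`H = (King N).map e.toEmbedding` or `(King N).comap e.symm`; it is isomorphic to `King N` (`SimpleGraph.Iso.map` /
`SimpleGraph.Iso.comap`), an isomorphism preserves connectedness, `edist` and `ediam` (if the lemma for `edist` is
missing: a walk maps to a walk of the same length under a hom, `SimpleGraph.Walk.map`, in both directions; in this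
file only `≤` in both directions is needed). Apply the last hypothesis of `Univ` to `H` with `king_conn`,
`king_ediam` and compose with `e`.
`four_points`: let `g i : Fin 4 → Fin (N + 1)` be `fun k => ⟨ρ i k, _⟩`. Then `supd (g i) (g j) = ρ i j`:
`|ρ i k - ρ j k| ≤ ρ i j` by the triangle inequality and symmetry, with equality for `k = j` (`ρ j j = 0`). Put
`f i = F (g i)` with `F` from `univ_king`; `G.edist (f i) (f j) = (King N).edist (g i) (g j) = ρ i j`
(`king_edist`).
-/

set_option autoImplicit false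

namespace Pool.Agent.H33.UN

private theorem edist_hom_le {α β : Type} {G : SimpleGraph α} {H : SimpleGraph β} (φ : G →g H) (a b : α) :
    H.edist (φ a) (φ b) ≤ G.edist a b := by
  unfold SimpleGraph.edist
  refine le_iInf fun p => ?_
  refine (iInf_le _ (p.map φ)).trans ?_
  rw [SimpleGraph.Walk.length_map]

private theorem edist_iso {α β : Type} {G : SimpleGraph α} {H : SimpleGraph β} (φ : G ≃g H) (a b : α) :
    H.edist (φ a) (φ b) = G.edist a b := by
  apply le_antisymm
  · exact edist_hom_le φ.toHom a b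
  · have := edist_hom_le φ.symm.toHom (φ a) (φ b)
    have h1 : φ.symm.toHom (φ a) = a := φ.symm_apply_apply a
    have h2 : φ.symm.toHom (φ b) = b := φ.symm_apply_apply b
    rwa [h1, h2] at this

private theorem ediam_iso {α β : Type} {G : SimpleGraph α} {H : SimpleGraph β} (φ : G ≃g H) :
    H.ediam = G.ediam := by
  apply le_antisymm
  · rw [SimpleGraph.ediam_eq_iSup_iSup_edist]
    refine iSup_le fun u => iSup_le fun v => ?_
    obtain ⟨a, rfl⟩ := φ.surjective u
    obtain ⟨b, rfl⟩ := φ.surjective v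
    rw [edist_iso]
    exact SimpleGraph.edist_le_ediam
  · rw [SimpleGraph.ediam_eq_iSup_iSup_edist]
    refine iSup_le fun u => iSup_le fun v => ?_
    rw [← edist_iso φ]
    exact SimpleGraph.edist_le_ediam

theorem univ_king {N : ℕ} {G : SimpleGraph ℕ} (h : Univ N G) :
    ∃ F : (Fin 4 → Fin (N + 1)) → ℕ, ∀ f g, G.edist (F f) (F g) = (King N).edist f g := by
  let e := Fintype.equivFin (Fin 4 → Fin (N + 1))
  have φ : King N ≃g (King N).map e.toEmbedding := SimpleGraph.Iso.map e (King N)
  have hc : ((King N).map e.toEmbedding).Connected := φ.connected_iff.1 (king_conn N)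
  have hd : ((King N).map e.toEmbedding).ediam = (N : ℕ∞) := by
    rw [ediam_iso φ, king_ediam]
  obtain ⟨f, hf⟩ := h.2.2.2 _ _ hc hd
  refine ⟨fun x => f (φ x), fun x y => ?_⟩
  rw [hf, edist_iso φ]

theorem four_points {N : ℕ} {G : SimpleGraph ℕ} (h : Univ N G) (ρ : Fin 4 → Fin 4 → ℕ)
    (h0 : ∀ i, ρ i i = 0) (h1 : ∀ i j, ρ i j = ρ j i) (h2 : ∀ i j k, ρ i k ≤ ρ i j + ρ j k)
    (h3 : ∀ i j, ρ i j ≤ N) :
    ∃ f : Fin 4 → ℕ, ∀ i j, G.edist (f i) (f j) = (ρ i j : ℕ∞) := by
  obtain ⟨F, hF⟩ := univ_king h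
  let g : Fin 4 → Fin 4 → Fin (N + 1) := fun i k => ⟨ρ i k, Nat.lt_succ_of_le (h3 i k)⟩
  refine ⟨fun i => F (g i), fun i j => ?_⟩
  rw [hF, king_edist]
  congr 1
  unfold supd
  apply le_antisymm
  · refine Finset.sup_le fun k _ => ?_
    show (ρ i k - ρ j k) + (ρ j k - ρ i k) ≤ ρ i j
    have e1 := h2 i j k
    have e2 := h2 j i k
    have e3 := h1 i j
    omega
  · have := Finset.le_sup (f := fun k => ((g i k : ℕ) - g j k) + ((g j k : ℕ) - g i k)) (Finset.mem_univ j)
    refine le_trans ?_ this
    show ρ i j ≤ (ρ i j - ρ j j) + (ρ j j - ρ i j)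
    have e0 := h0 j
    omega

end Pool.Agent.H33.UN
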